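import Pool.Agent.MP_776d16_ag.H34T.Spec

namespace Pool.Agent.MP_776d16_ag.H34T

open Polynomial Pool.Agent.MP_776d16_ag.H34 Pool.Agent.MP_776d16_ag.H34G
open MvPolynomial (pderiv IsWeightedHomogeneous)

namespace AllA

variable {ι : Type} [Fintype ι] {W : Option ι → ℕ} {d : ℕ} {G : MvPolynomial (Option ι) ℂ}

lemma grad (hG : IsWeightedHomogeneous W G d)
    (hq : ∀ v : Option ι → ℂ, v none ≠ 0 → MvPolynomial.eval v G = 0 →
      ∃ o, MvPolynomial.eval v (pderiv o G) ≠ 0) (hW : Wg W d)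
    (v : Option ι → ℂ) (hv : v none ≠ 0) (h0 : MvPolynomial.eval v G = 0) :
    ∃ i, MvPolynomial.eval v (pderiv (some i) G) ≠ 0 := by
  by_contra hcon
  push Not at hcon
  obtain ⟨o, ho⟩ := hq v hv h0
  rcases o with _ | i
  · have h1 := congrArg (MvPolynomial.eval v) hG.sum_weight_X_mul_pderiv
    simp only [map_sum, Fintype.sum_option, map_add, map_natCast, map_mul, MvPolynomial.eval_X,
      hcon, h0, mul_zero, Finset.sum_const_zero, add_zero, nsmul_eq_mul, mul_eq_zero,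
      Nat.cast_eq_zero] at h1
    rcases h1 with h1 | h1 | h1
    · exact (hW.pos none).ne' h1
    · exact hv h1
    · exact ho h1
  · exact ho (hcon i)

/-- every point is connected to a boundary point through which very free curves extend -/
lemma reach (hS : Serre) (hE : Expand) (hR : Reparam) (hU : Upgrade) (hT : Tail) (hW : Wg W d)
    (hc : 2 ≤ Fintype.card ι) (hG : IsWeightedHomogeneous W G d) (hgood : Good W d G)
    (hq : ∀ v : Option ι → ℂ, v none ≠ 0 → MvPolynomial.eval v G = 0 →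
      ∃ o, MvPolynomial.eval v (pderiv o G) ≠ 0)
    (r : Option ι → ℂ) (hr : r ≠ 0) (hr1 : r none = 0 ∨ r none = 1)
    (h0 : MvPolynomial.eval r G = 0) :
    ∃ v : Option ι → ℂ, v ≠ 0 ∧ v none = 0 ∧ MvPolynomial.eval v G = 0 ∧
      ∀ (e : ℕ) (y : Option ι → ℂ[X]) (π : Option ι → ℂ), Crv2 W d e G y v π →
        y none = C (v none) →
        ∃ (e' : ℕ) (z : Option ι → ℂ[X]), Crv2 W d e' G z r π ∧ z none = C (r none) := by
  rcases hr1 with hr1 | hr1
  · exact ⟨r, hr, hr1, h0, fun e y π h1 h2 => ⟨e, y, h1, h2⟩⟩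
  have hrne : r none ≠ 0 := by rw [hr1]; exact one_ne_zero
  obtain ⟨e1, x, v, he1, hv, hv0, hdeg, hst, hen, hx, hx0⟩ :=
    hT ι W d hW hc G hG hgood r hr1 h0 (grad hG hq hW r hrne h0)
  have hvG : MvPolynomial.eval v G = 0 := by
    have := coeff_top_aeval hG hdeg
    rw [hx, coeff_zero] at this
    simpa only [hen] using this.symm
  refine ⟨v, hv, hv0, hvG, fun e y π hy hy0 => ?_⟩
  obtain ⟨-, -, hunit, -⟩ := ends2 ℂ ι W d e hW G hG _ _ _ hy
  set q : Option ι → ℂ[X] := fun o => reflect (e1 * W o) (x o) with hqdef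
  have hqdeg : ∀ o, (q o).natDegree ≤ e1 * W o := fun o =>
    natDegree_reflect_le.trans (max_le le_rfl (hdeg o))
  have hq0 : ∀ o, (q o).coeff 0 = v o := fun o => by
    simp only [hqdef, coeff_reflect, revAt_zero, hen]
  have hq1 : ∀ o, (q o).coeff (e1 * W o) = r o := fun o => by
    simp only [hqdef, coeff_reflect, revAt_le le_rfl, Nat.sub_self, hst]
  have hqG : MvPolynomial.aeval q G = 0 := by
    rw [hqdef, ← reflect_aeval hG hdeg, hx, reflect_zero]
  have hqn : q none = C (r none) * X ^ (e1 * W none) := by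
    simp only [hqdef, hx0, reflect_C, hr1]
  have hsub : ∀ i, e1 * d - e1 * W (some i) = e1 * (d - W (some i)) := fun i =>
    (Nat.mul_sub _ _ _).symm
  obtain ⟨j, hj, honto⟩ := hS ι (fun i => MvPolynomial.aeval q (pderiv (some i) G)) (e1 * d)
    (fun i => e1 * W (some i)) (fun i => Nat.mul_le_mul_left _ (hW.lt i).le)
    (fun i => by
      rw [hsub]
      exact natDegree_aeval_le (homog_pderiv hG _ (hW.lt i).le) hqdeg)
    (fun s => by
      simp only [eval_aeval_poly]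
      rcases eq_or_ne s 0 with rfl | hs
      · simp only [← coeff_zero_eq_eval_zero, hq0]
        by_contra hcon
        push Not at hcon
        obtain ⟨h, hh⟩ := hunit
        simp [hcon] at hh
      · refine grad hG hq hW _ ?_ ?_
        · simp [hqn, hr1, hs]
        · rw [← eval_aeval_poly, hqG, eval_zero])
    (by
      obtain ⟨i, hi⟩ := grad hG hq hW r hrne h0
      refine ⟨i, ?_⟩
      rw [hsub, coeff_top_aeval (homog_pderiv hG _ (hW.lt i).le) hqdeg]
      simpa only [hq1] using hi)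
  obtain ⟨g1, g2, g3, g4, g5, g6⟩ := hE ι W d e (j + 1) hW j.succ_pos G y v π hy
  obtain ⟨μ, z, hμ, hz, hz0⟩ := hU ι W d e1 ((j + 1) * e) j hW he1 hj
    (fun i => by
      have h1 : 0 < e * W (some i) := Nat.mul_pos hy.pos (hW.pos _)
      rw [mul_assoc]
      exact (Nat.lt_succ_self j).trans_le (Nat.le_mul_of_pos_right _ h1))
    G hG q (fun o => expand ℂ (j + 1) (y o)) v r π hqdeg hq0 hq1 hqG hqn honto g1 g2 g3 g4
    (by simp [hy0, hv0]) (fun o b h1 h2 => g5 o b h1 (Nat.lt_succ_of_le h2)) g6 hunit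
  obtain ⟨c, hc⟩ := IsAlgClosed.exists_pow_nat_eq μ hz.pos
  have hc0 : c ≠ 0 := by
    rintro rfl
    rw [zero_pow hz.pos.ne'] at hc
    exact hμ hc.symm
  have h1 := hR ι W d _ G _ _ _ c hc0 (scale2 ℂ ι W d _ hW G hG _ _ _ μ⁻¹ (inv_ne_zero hμ) hz)
  have e1' : (fun o => μ⁻¹ ^ W o * (μ ^ W o * r o)) = r := funext fun o => by
    rw [← mul_assoc, ← mul_pow, inv_mul_cancel₀ hμ, one_pow, one_mul]
  have e2' : (fun o => c ^ ((e1 + (j + 1) * e) * W o) * (μ⁻¹ ^ W o * π o)) = π :=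
    funext fun o => by
      rw [pow_mul, hc, ← mul_assoc, ← mul_pow, mul_inv_cancel₀ hμ, one_pow, one_mul]
  rw [e1', e2'] at h1
  refine ⟨_, _, h1, ?_⟩
  simp only [hz0, ← C_mul, C_comp]
  rw [← mul_assoc, ← mul_pow, inv_mul_cancel₀ hμ, one_pow, one_mul]

end AllA

open AllA in
theorem all : Serre → Expand → Reparam → Upgrade → Tail → All := by
  intro hS hE hR hU hT ι _ W d hW hc G hG hgood hq
  refine final2 ι W d hW G hG ?_
  intro r1 r2 κ hκ h1 h2 hr2 e1 e2
  have hr1 : r1 ≠ 0 := by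
    rintro rfl
    exact zero_ne_one h1
  obtain ⟨v1, a1, b1, c1, k1⟩ := reach hS hE hR hU hT hW hc hG hgood hq r1 hr1 (Or.inr h1) e1
  obtain ⟨v2, a2, b2, c2, k2⟩ := reach hS hE hR hU hT hW hc hG hgood hq r2 hr2 (h2 ▸ hκ) e2
  obtain ⟨n1, n2, y1, y2, π, p1, p2, t1, t2⟩ := hgood v1 v2 a1 a2 b1 b2 c1 c2
  obtain ⟨m1, z1, s1, u1⟩ := k1 _ _ _ p1 t1
  obtain ⟨m2, z2, s2, u2⟩ := k2 _ _ _ p2 t2
  refine glue2 ends2 sl2 ι W d m1 m2 hW G hG _ _ π r1 r2 κ hκ
    (reflect2 ℂ ι W d m1 hW G hG _ _ _ s1) ?_ (reflect2 ℂ ι W d m2 hW G hG _ _ _ s2) ?_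
  · rw [u1, h1, reflect_C, C_1, one_mul]
  · rw [u2, h2, reflect_C]

end Pool.Agent.MP_776d16_ag.H34T
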