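import Pool.Agent.MP_776d16_ag.H34T.Spec

/- Row Bdry: curves in the boundary depend only on the equation of the boundary. -/

namespace Pool.Agent.MP_776d16_ag.H34T

open Polynomial Pool.Agent.MP_776d16_ag.H34 Pool.Agent.MP_776d16_ag.H34G
open MvPolynomial (pderiv IsWeightedHomogeneous)

namespace BdryA

variable {ι : Type}

lemma aeval_atD {B : Type} [CommRing B] [Algebra ℂ B] (G : MvPolynomial (Option ι) ℂ)
    (z : Option ι → B) (h : z none = 0) :
    MvPolynomial.aeval z G = MvPolynomial.aeval (fun i => z (some i)) (atD G) := by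
  rw [← MoveA.eval_atD G z h, MvPolynomial.eval_map, MvPolynomial.aeval_def]

lemma pderiv_atD (G : MvPolynomial (Option ι) ℂ) (i : ι) :
    atD (pderiv (some i) G) = pderiv i (atD G) := by
  classical
  unfold atD
  induction G using MvPolynomial.induction_on with
  | C r => simp
  | add p q hp hq => simp only [map_add, hp, hq]
  | mul_X p o hp =>
    simp only [Derivation.leibniz, smul_eq_mul, map_add, map_mul, hp, MvPolynomial.aeval_X]
    rcases o with _ | j
    · simp
    · by_cases h : j = i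
      · subst h; simp
      · simp [MvPolynomial.pderiv_X_of_ne h,
          MvPolynomial.pderiv_X_of_ne (fun e => h (Option.some.inj e) : some j ≠ some i)]

/-- the equation `g - t ^ d` -/
noncomputable def up (d : ℕ) (g : MvPolynomial ι ℂ) : MvPolynomial (Option ι) ℂ :=
  MvPolynomial.rename some g - MvPolynomial.X none ^ d

lemma atD_up {d : ℕ} (hd : d ≠ 0) (g : MvPolynomial ι ℂ) : atD (up d g) = g := by
  have h : (fun o : Option ι => o.elim 0 MvPolynomial.X) ∘ some =
      (MvPolynomial.X : ι → MvPolynomial ι ℂ) := rfl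
  rw [atD, up, map_sub, MvPolynomial.aeval_rename, h, MvPolynomial.aeval_X_left_apply]
  simp [hd]

lemma up_homog {w : ι → ℕ} {d : ℕ} {g : MvPolynomial ι ℂ} (hg : IsWeightedHomogeneous w g d) :
    IsWeightedHomogeneous (fun o : Option ι => o.elim 1 w) (up d g) d := by
  refine IsWeightedHomogeneous.sub (fun μ hμ => ?_) ?_
  · obtain ⟨u, rfl, hu⟩ := MvPolynomial.coeff_rename_ne_zero _ _ _ hμ
    rw [← hg hu, Finsupp.weight_apply, Finsupp.weight_apply,
      Finsupp.sum_mapDomain_index_inj (Option.some_injective ι)]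
    rfl
  · simpa using (MvPolynomial.isWeightedHomogeneous_X ℂ (fun o : Option ι => o.elim 1 w) none).pow d

lemma coeff_up (d : ℕ) (μ : Option ι →₀ ℕ) : ∃ T : MvPolynomial (ι →₀ ℕ) ℂ,
    ∀ g : MvPolynomial ι ℂ, MvPolynomial.aeval (fun ν => MvPolynomial.coeff ν g) T =
      MvPolynomial.coeff μ (up d g) := by
  by_cases h : ∃ u : ι →₀ ℕ, u.mapDomain some = μ
  · obtain ⟨u, rfl⟩ := h
    refine ⟨MvPolynomial.X u - MvPolynomial.C (MvPolynomial.coeff (u.mapDomain some)
      (MvPolynomial.X none ^ d : MvPolynomial (Option ι) ℂ)), fun g => ?_⟩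
    rw [up, MvPolynomial.coeff_sub, MvPolynomial.coeff_rename_mapDomain _ (Option.some_injective ι),
      map_sub, MvPolynomial.aeval_X, MvPolynomial.aeval_C]
    rfl
  · refine ⟨0 - MvPolynomial.C (MvPolynomial.coeff μ
      (MvPolynomial.X none ^ d : MvPolynomial (Option ι) ℂ)), fun g => ?_⟩
    rw [up, MvPolynomial.coeff_sub, MvPolynomial.coeff_rename_eq_zero _ _ _ fun u hu =>
      (h ⟨u, hu⟩).elim, map_sub, map_zero, MvPolynomial.aeval_C]
    rfl

lemma transfer [Fintype ι] {W W' : Option ι → ℕ} (hW : ∀ i, W (some i) = W' (some i)) {d e : ℕ}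
    {G G' : MvPolynomial (Option ι) ℂ} (hG : atD G' = atD G) {z : Option ι → ℂ[X]}
    {r π : Option ι → ℂ} (hz : z none = 0) (h : Crv2 W' d e G' z r π) : Crv2 W d e G z r π := by
  refine ⟨h.pos, fun o => ?_, h.start, fun o => ?_, ?_, fun f hf => ?_⟩
  · rcases o with _ | i
    · simp [hz]
    · rw [hW]; exact h.deg _
  · rcases o with _ | i
    · rw [← h.stop, hz, coeff_zero, coeff_zero]
    · rw [hW]; exact h.stop _
  · rw [aeval_atD G z hz, ← hG, ← aeval_atD G' z hz, h.eqn]
  · obtain ⟨k, h1, h2⟩ := h.vf f hf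
    refine ⟨k, fun i => by rw [hW]; exact h1 i, h2.trans (Finset.sum_congr rfl fun i _ => ?_)⟩
    rw [aeval_atD _ z hz, aeval_atD _ z hz, pderiv_atD, pderiv_atD, hG]

end BdryA

open BdryA in
theorem bdry' : Bdry := by
  intro ι _ a w d hw
  obtain ⟨Δ, h1, h2⟩ := open_all ι a d (fun o => o.elim 1 w) d ⟨hw, mul_one d⟩
  choose T hT using coeff_up (ι := ι) d
  have key : ∀ g : MvPolynomial ι ℂ,
      MvPolynomial.eval (fun ν => MvPolynomial.coeff ν g) (MvPolynomial.aeval T Δ) =
        MvPolynomial.eval (fun μ => MvPolynomial.coeff μ (up d g)) Δ := fun g => by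
    rw [← MvPolynomial.aeval_eq_eval, ← MvPolynomial.aeval_eq_eval]
    exact (MvPolynomial.comp_aeval_apply _ _ _).trans (by simp only [hT])
  refine ⟨MvPolynomial.aeval T Δ, ?_, fun W hW _ G hG hΔ r1 r2 n1 n2 z1 z2 e1 e2 => ?_⟩
  · have h3 : up d (∑ i, MvPolynomial.X i ^ a i) = fermat ℂ a d := by simp [up, fermat]
    rwa [key, h3]
  · have hg := CoreA.atD_homog hG
    simp only [hW] at hg
    have h3 := atD_up hw.pos.ne' (atD G)
    have h4 : ∀ r : Option ι → ℂ, r none = 0 → MvPolynomial.eval r G = 0 →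
        MvPolynomial.eval r (up d (atD G)) = 0 := fun r h0 h => by
      rw [← MvPolynomial.aeval_eq_eval] at h ⊢
      rw [aeval_atD _ r h0, h3, ← aeval_atD _ r h0, h]
    obtain ⟨a1, a2, y1, y2, v, c1, c2, t1, t2⟩ := h2 _ (up_homog hg) (by rwa [key] at hΔ) r1 r2
      n1 n2 (h4 r1 z1 e1) (h4 r2 z2 e2)
    exact ⟨a1, a2, y1, y2, v, transfer hW h3 (by rw [t1, z1, C_0]) c1,
      transfer hW h3 (by rw [t2, z2, C_0]) c2, t1, t2⟩

end Pool.Agent.MP_776d16_ag.H34T

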