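import Pool.Agent.MP_776d16_ag.H34T.Spec

/-
Very free curves through the non-constant points.
-/

namespace Pool.Agent.MP_776d16_ag.H34T

open Polynomial Pool.Agent.MP_776d16_ag.H34 Pool.Agent.MP_776d16_ag.H34G

theorem specPt : SpecPt := by
  intro K α _ _ _ O hc y hy
  have hm : ∀ f : MvPolynomial α ℂ, (MvPolynomial.aeval y).toRingHom f ∈ O := fun f => by
    induction f using MvPolynomial.induction_on with
    | C c => simpa using hc c
    | add p q hp hq => rw [map_add]; exact add_mem hp hq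
    | mul_X p a hp => rw [map_mul]; exact mul_mem hp (by simpa using hy a)
  obtain ⟨m, hm1, hm2⟩ := Ideal.exists_le_maximal ((IsLocalRing.maximalIdeal O).comap
    ((MvPolynomial.aeval y).toRingHom.codRestrict O hm)) (Ideal.comap_ne_top _
      (IsLocalRing.maximalIdeal.isMaximal O).ne_top)
  obtain ⟨pt, rfl⟩ := MvPolynomial.isMaximal_iff_eq_vanishingIdeal_singleton.1 hm1
  exact ⟨pt, fun f hf => (MvPolynomial.mem_vanishingIdeal_singleton_iff pt f).1
    (hm2 (ValuationSubring.coe_mem_nonunits_iff.1 hf))⟩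

theorem gen : SpecPt → Gen := by
  intro hS ι _ W d hW G hG hgood K _ _ _ r h1 hr ⟨i, hi⟩
  have ht : Transcendental ℂ (r (some i))⁻¹ := fun h => hi (minpoly.mem_range_of_degree_eq_one ℂ _
    (IsAlgClosed.degree_eq_one_of_irreducible ℂ
      (minpoly.irreducible (IsAlgebraic.inv_iff.1 h).isIntegral)))
  have ht0 : r (some i) ≠ 0 := fun h => hi ⟨0, by rw [h, map_zero]⟩
  obtain ⟨O, hO1, hO2⟩ := OpenA.place (aeval (r (some i))⁻¹ : ℂ[X] →ₐ[ℂ] K).toRingHom
    (Ideal.span {X}) (Ideal.span_singleton_ne_top not_isUnit_X)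
    ((transcendental_iff_ker_eq_bot.1 ht).le.trans bot_le)
  have hX : O.valuation (r (some i))⁻¹ < 1 := by
    simpa [ValuationSubring.mem_nonunits_iff] using hO2 X (Ideal.mem_span_singleton_self _)
  obtain ⟨c, r', hc, hr', j, hj⟩ := CoreA.rescale W hW.pos O r fun h => ht0 (congrFun h _)
  have hv : O.valuation c < 1 := by
    refine (pow_lt_one_iff (hW.pos (some i)).ne').1 ?_
    rw [← map_pow, ← mul_inv_cancel_right₀ ht0 (c ^ _), ← hr', map_mul]
    exact mul_lt_one_of_nonneg_of_lt_one_right (O.valuation_le_one _) zero_le hX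
  have hG' : MvPolynomial.aeval (fun o => (r' o : K)) G = 0 := by
    simp only [hr']
    rw [aeval_scale hG, hr, mul_zero]
  obtain ⟨pt, hpt⟩ := hS K (Option ι) O (fun a => by simpa using hO1 (C a)) (fun o => r' o)
    fun o => (r' o).2
  have hk : ∀ f : MvPolynomial (Option ι) ℂ, MvPolynomial.aeval (fun o => (r' o : K)) f = 0 →
      MvPolynomial.eval pt f = 0 := fun f hf => hpt f (hf ▸ zero_mem _)
  have p0 : pt none = 0 := by
    simpa using hpt (MvPolynomial.X none) (by
      rw [MvPolynomial.aeval_X, hr', h1, mul_one, ValuationSubring.mem_nonunits_iff, map_pow]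
      exact (pow_lt_one_iff (hW.pos none).ne').2 hv)
  have p1 : pt ≠ 0 := fun h => by
    have h2 := hk (MvPolynomial.X j - 1) (by simp [hj])
    rw [map_sub, MvPolynomial.eval_X, map_one, h] at h2
    simp at h2
  obtain ⟨e, -, z0, -, π0, hz0, -, hn0, -⟩ := hgood pt pt p1 p1 p0 p0 (hk G hG') (hk G hG')
  let θ := (MvPolynomial.aeval (R := ℂ) fun o => (r' o : K)).toRingHom
  let R := MvPolynomial (Option ι) ℂ ⧸ RingHom.ker θ
  let _ : Algebra R K := (RingHom.kerLift θ).toAlgebra
  let _ : Algebra R ℂ := (Ideal.Quotient.lift _ (MvPolynomial.eval pt) hk).toAlgebra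
  let x : Option ι → R := fun o => Ideal.Quotient.mk _ (MvPolynomial.X o)
  have e1 : ∀ o, algebraMap R ℂ (x o) = pt o := fun o => MvPolynomial.eval_X (f := pt) o
  have e2 : ∀ o, algebraMap R K (x o) = r' o := fun o => MvPolynomial.aeval_X _ o
  have e3 : (algebraMap R ℂ).comp (algebraMap ℂ R) = RingHom.id ℂ :=
    RingHom.ext fun a => MvPolynomial.eval_C (f := pt) a
  have e4 : (algebraMap R K).comp (algebraMap ℂ R) = algebraMap ℂ K :=
    RingHom.ext fun a => MvPolynomial.aeval_C _ a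
  have hinj : Function.Injective (algebraMap R K) := RingHom.kerLift_injective θ
  obtain ⟨A, _, _, hflat, hfp, ⟨φ⟩, z, π, hz, hzn⟩ :=
    spread1 ends2 (endSm sl2) (slPoly2 sl2) R ι W d e hW (MvPolynomial.map (algebraMap ℂ R) G)
      (homog_map _ hG) x (hinj (by
        rw [← eval_map_hom, MvPolynomial.map_map, e4, map_zero, funext e2, MvPolynomial.eval_map,
          ← MvPolynomial.aeval_def, hG'])) ℂ z0 π0
      (by rwa [MvPolynomial.map_map, e3, MvPolynomial.map_id, funext e1]) (by rw [e1, hn0])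
  obtain ⟨ψ⟩ := ptB2 K R A hinj hflat inferInstance (φ : A →+* ℂ).domain_nontrivial
  have hψ : ∀ y, (ψ : A →+* K) (algebraMap R A y) = algebraMap R K y := fun y => ψ.commutes y
  have h3 := map2 A K ι W d e _ _ _ _ (ψ : A →+* K) hz
  rw [MvPolynomial.map_map, RingHom.ext hψ (f := (ψ : A →+* K).comp (algebraMap R A)),
    MvPolynomial.map_map, e4] at h3
  have h4 := scale2 K ι W d e hW _ (homog_map _ hG) _ _ _ c⁻¹ (inv_ne_zero hc) h3
  have e5 : ∀ o, c⁻¹ ^ W o * (ψ : A →+* K) (algebraMap R A (x o)) = r o := by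
    intro o
    rw [hψ, e2, hr', ← mul_assoc, ← mul_pow, inv_mul_cancel₀ hc, one_pow, one_mul]
  rw [funext e5] at h4
  refine ⟨e, _, _, h4, ?_⟩
  rw [hzn, map_C, ← C_mul, e5, h1]

end Pool.Agent.MP_776d16_ag.H34T
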