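import Pool.Agent.MP_776d16_ag.H34T.Spec

/-
Row Lim: a nonconstant curve through a generic point specialises to a nonconstant curve.
-/

namespace Pool.Agent.MP_776d16_ag.H34T

open Polynomial Pool.Agent.MP_776d16_ag.H34 Pool.Agent.MP_776d16_ag.H34G

namespace LimA

section
variable {B B' : Type} [CommRing B] [CommRing B'] {n : ℕ}

/-- the polynomial with the given coefficients -/
noncomputable def pol (u : Fin n → B) : B[X] := ∑ b : Fin n, monomial (b : ℕ) (u b)

lemma pol_map (φ : B →+* B') (u : Fin n → B) : (pol u).map φ = pol fun b => φ (u b) := by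
  simp [pol, Polynomial.map_sum]

lemma pol_coeff (u : Fin n → B) (b : Fin n) : (pol u).coeff b = u b := by
  rw [pol, finsetSum_coeff, Finset.sum_eq_single b
    (fun b' _ h => coeff_monomial_of_ne _ fun e => h (Fin.ext e.symm)) (by simp),
    coeff_monomial_same]

lemma pol_coeff_ge (u : Fin n → B) {m : ℕ} (h : n ≤ m) : (pol u).coeff m = 0 := by
  rw [pol, finsetSum_coeff]
  exact Finset.sum_eq_zero fun b _ => coeff_monomial_of_ne _ (by have := b.2; omega)

lemma pol_comp (p : B[X]) (c : B) (h : p.natDegree < n) :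
    (pol fun b : Fin n => c ^ (b : ℕ) * p.coeff b) = p.comp (C c * X) := by
  ext m
  rw [comp_C_mul_X_coeff]
  rcases lt_or_ge m n with hm | hm
  · exact (pol_coeff _ ⟨m, hm⟩).trans (mul_comm _ _)
  · rw [pol_coeff_ge _ hm, coeff_eq_zero_of_natDegree_lt (h.trans_le hm), zero_mul]

lemma aeval_cmp {σ : Type} (z : σ → B[X]) (q : B[X]) (G : MvPolynomial σ B) :
    MvPolynomial.aeval (fun o => (z o).comp q) G = (MvPolynomial.aeval z G).comp q := by
  induction G using MvPolynomial.induction_on with
  | C r => simp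
  | add p p' hp hp' => simp only [map_add, add_comp, hp, hp']
  | mul_X p o hp => simp only [map_mul, mul_comp, hp, MvPolynomial.aeval_X]

end

end LimA

open LimA in
theorem lim : SpecPt → Lim := by
  intro hS ι _ G K _ _ _ z hz0 hz ⟨i0, hi0⟩ r0 hr0
  classical
  let θ : MvPolynomial ι ℂ →+* K := (MvPolynomial.aeval fun i => (z (some i)).coeff 0).toRingHom
  obtain ⟨O, hO1, hO2⟩ := OpenA.place θ (RingHom.ker (MvPolynomial.eval r0))
    (RingHom.ker_ne_top _) fun f hf => hr0 f hf
  obtain ⟨D, hD⟩ : ∃ D : ℕ, ∀ i, (z (some i)).natDegree ≤ D :=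
    ⟨Finset.univ.sup fun i => (z (some i)).natDegree, fun i =>
      Finset.le_sup (f := fun i => (z (some i)).natDegree) (Finset.mem_univ i)⟩
  obtain ⟨c, r', -, hr', j, hj⟩ := CoreA.rescale (fun a : ι × Fin D => (a.2 : ℕ) + 1)
    (fun _ => Nat.succ_pos _) O (fun a => (z (some a.1)).coeff (a.2 + 1)) (by
      intro h
      have h1 := congrFun h (i0, ⟨(z (some i0)).natDegree - 1, by have := hD i0; omega⟩)
      simp only [Nat.sub_add_cancel hi0, Pi.zero_apply, coeff_natDegree, leadingCoeff_eq_zero] at h1
      rw [h1, natDegree_zero] at hi0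
      exact lt_irrefl _ hi0)
  let y : ι × Fin (D + 1) → K := fun a => c ^ (a.2 : ℕ) * (z (some a.1)).coeff a.2
  obtain ⟨pt, hpt⟩ := hS K (ι × Fin (D + 1)) O
    (fun a => by simpa [θ] using hO1 (MvPolynomial.C a)) y (by
      rintro ⟨i, b⟩
      refine Fin.cases ?_ (fun b => ?_) b
      · simpa [θ, y] using hO1 (MvPolynomial.X i)
      · have := (r' (i, b)).2
        rwa [hr'] at this)
  have hpt0 : ∀ f, MvPolynomial.aeval y f = 0 → MvPolynomial.eval pt f = 0 :=
    fun f hf => hpt f (hf ▸ O.nonunits.zero_mem)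
  refine ⟨fun o => o.elim (C 1) fun i => pol fun b => pt (i, b), rfl, fun i => ?_, ?_, j.1, ?_⟩
  · have h1 := hpt (MvPolynomial.X (i, 0) - MvPolynomial.C (r0 i)) (by
      have := hO2 (MvPolynomial.X i - MvPolynomial.C (r0 i)) (by simp [RingHom.mem_ker])
      rw [map_sub] at this
      simpa [θ, y] using this)
    rw [map_sub, MvPolynomial.eval_X, MvPolynomial.eval_C, sub_eq_zero] at h1
    exact (pol_coeff (fun b => pt (i, b)) 0).trans h1
  · let xU : Option ι → (MvPolynomial (ι × Fin (D + 1)) ℂ)[X] :=
      fun o => o.elim (C 1) fun i => pol fun b => MvPolynomial.X (i, b)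
    have h1 := map_aeval_poly (MvPolynomial.aeval y).toRingHom xU
      (MvPolynomial.map MvPolynomial.C G)
    have h2 := map_aeval_poly (MvPolynomial.eval pt) xU (MvPolynomial.map MvPolynomial.C G)
    have e1 : (fun o => (xU o).map (MvPolynomial.aeval y).toRingHom) =
        fun o => (z o).comp (C c * X) := by
      funext o
      rcases o with _ | i
      · simp [xU, hz0]
      · rw [← pol_comp (n := D + 1) _ c (Nat.lt_succ_of_le (hD i))]
        simp [xU, pol_map, y]
    have e2 : (fun o => (xU o).map (MvPolynomial.eval pt)) =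
        fun o => o.elim (C 1) fun i => pol fun b => pt (i, b) := by
      funext o
      rcases o with _ | i
      · simp [xU]
      · simp [xU, pol_map]
    have e3 : (MvPolynomial.aeval (R := ℂ) y).toRingHom.comp MvPolynomial.C = algebraMap ℂ K := by
      ext a
      simp
    have e4 : (MvPolynomial.eval pt).comp MvPolynomial.C = RingHom.id ℂ := by
      ext a
      simp
    rw [e1, MvPolynomial.map_map, e3, aeval_cmp, hz, zero_comp] at h1
    rw [e2, MvPolynomial.map_map, e4, MvPolynomial.map_id] at h2
    rw [← h2]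
    ext n
    rw [coeff_map, coeff_zero]
    refine hpt0 _ ?_
    have := congrArg (fun p => coeff p n) h1
    simp only [coeff_map, coeff_zero] at this
    exact this
  · have h1 := hpt0 (MvPolynomial.X (j.1, j.2.succ) - 1) (by
      have := hr' j
      rw [hj] at this
      simpa [y, sub_eq_zero] using this.symm)
    rw [map_sub, MvPolynomial.eval_X, map_one, sub_eq_zero] at h1
    have h2 : (pol fun b => pt (j.1, b)).coeff (j.2.succ : Fin (D + 1)) ≠ 0 := by
      rw [pol_coeff, h1]
      exact one_ne_zero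
    exact (Nat.succ_pos _).trans_le (le_natDegree_of_ne_zero h2)

end Pool.Agent.MP_776d16_ag.H34T
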