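import Pool.Agent.MP_776d16_ag.H34T.Spec

/-
Row Tail: through a smooth point off the boundary there is a curve with constant `t`-coordinate
and end on the boundary.
-/

namespace Pool.Agent.MP_776d16_ag.H34T

open Polynomial Pool.Agent.MP_776d16_ag.H34 Pool.Agent.MP_776d16_ag.H34G
open MvPolynomial (pderiv IsWeightedHomogeneous)

namespace TailA

lemma alg_of_hom {ι K : Type} [Field K] (θ : MvPolynomial ι ℂ →+* K) :
    ∃ (_ : Algebra ℂ K) (y : ι → K), ∀ f, MvPolynomial.aeval y f = θ f := by
  let inst : Algebra ℂ K := (θ.comp MvPolynomial.C).toAlgebra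
  refine ⟨inst, fun i => θ (MvPolynomial.X i), fun f => ?_⟩
  induction f using MvPolynomial.induction_on with
  | C r => rw [MvPolynomial.aeval_C]; rfl
  | add p q hp hq => rw [map_add, map_add, hp, hq]
  | mul_X p o hp => rw [map_mul, map_mul, hp, MvPolynomial.aeval_X]

lemma generic {ι : Type} {F : MvPolynomial ι ℂ} (hF : Prime F) :
    ∃ (K : Type) (_ : Field K) (_ : IsAlgClosed K) (_ : Algebra ℂ K) (y : ι → K),
      ∀ f, MvPolynomial.aeval y f = 0 ↔ F ∣ f := by
  have : (Ideal.span {F}).IsPrime := (Ideal.span_singleton_prime hF.ne_zero).2 hF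
  let K := AlgebraicClosure (FractionRing (MvPolynomial ι ℂ ⧸ Ideal.span {F}))
  let θ : MvPolynomial ι ℂ →+* K :=
    (algebraMap (FractionRing (MvPolynomial ι ℂ ⧸ Ideal.span {F})) K).comp
      ((algebraMap (MvPolynomial ι ℂ ⧸ Ideal.span {F}) _).comp (Ideal.Quotient.mk _))
  have hθ : ∀ f, θ f = 0 ↔ F ∣ f := fun f => by
    simp only [θ, RingHom.comp_apply, map_eq_zero, FaithfulSMul.algebraMap_eq_zero_iff,
      Ideal.Quotient.eq_zero_iff_mem, Ideal.mem_span_singleton]
  obtain ⟨inst, y, hy⟩ := alg_of_hom θ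
  exact ⟨K, inferInstance, inferInstance, inst, y, fun f => by rw [hy, hθ]⟩

lemma prime_factor {ι : Type} (r : ι → ℂ) (f : MvPolynomial ι ℂ) :
    f ≠ 0 → MvPolynomial.eval r f = 0 →
      ∃ F, Prime F ∧ F ∣ f ∧ MvPolynomial.eval r F = 0 := by
  induction f using UniqueFactorizationMonoid.induction_on_prime with
  | h₁ => intro h; exact absurd rfl h
  | h₂ x hx =>
    intro _ h
    exact absurd h (hx.map (MvPolynomial.eval r)).ne_zero
  | h₃ a p ha hp ih =>
    intro _ h
    rw [map_mul, mul_eq_zero] at h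
    rcases h with h | h
    · exact ⟨p, hp, dvd_mul_right _ _, h⟩
    · obtain ⟨F, h1, h2, h3⟩ := ih ha h
      exact ⟨F, h1, h2.mul_left _, h3⟩

lemma degreeOf_of_dvd {ι : Type} {F : MvPolynomial ι ℂ} {i k : ι} (hik : k ≠ i) {c : ℂ}
    (h : F ∣ MvPolynomial.X i - MvPolynomial.C c) : F.degreeOf k = 0 := by
  classical
  obtain ⟨A, hA⟩ := h
  have hne : (MvPolynomial.X i - MvPolynomial.C c : MvPolynomial ι ℂ) ≠ 0 := by
    intro h0
    have := congrArg (MvPolynomial.eval fun _ => c + 1) h0
    simp at this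
  have hF : F ≠ 0 := by rintro rfl; exact hne (by rw [hA, zero_mul])
  have hA0 : A ≠ 0 := by rintro rfl; exact hne (by rw [hA, mul_zero])
  have h1 := MvPolynomial.degreeOf_mul_eq (n := k) hF hA0
  have h2 : (MvPolynomial.X i - MvPolynomial.C c : MvPolynomial ι ℂ).degreeOf k = 0 := by
    refine Nat.le_zero.1 ((MvPolynomial.degreeOf_sub_le _ _ _).trans ?_)
    rw [MvPolynomial.degreeOf_C, MvPolynomial.degreeOf_X, if_neg hik, max_self]
  rw [← hA, h2] at h1
  omega

lemma not_all {ι : Type} [Fintype ι] (hι : 2 ≤ Fintype.card ι) {F : MvPolynomial ι ℂ}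
    (hF : F ≠ 0) {r : ι → ℂ} (hr : MvPolynomial.eval r F = 0) (c : ι → ℂ)
    (h : ∀ i, F ∣ MvPolynomial.X i - MvPolynomial.C (c i)) : False := by
  classical
  have hk : ∀ k, F.degreeOf k = 0 := fun k => by
    obtain ⟨i, hi⟩ := Fintype.exists_ne_of_one_lt_card (α := ι) (by omega) k
    exact degreeOf_of_dvd hi.symm (h i)
  have hC : F = MvPolynomial.C (MvPolynomial.coeff 0 F) := by
    ext m
    rw [MvPolynomial.coeff_C]
    split_ifs with hm
    · rw [hm]
    · by_contra hne
      refine hm (Finsupp.ext fun k => ?_)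
      have := MvPolynomial.monomial_le_degreeOf k (MvPolynomial.mem_support_iff.2 hne)
      rw [hk] at this
      rw [Finsupp.zero_apply]
      omega
  rw [hC, MvPolynomial.eval_C] at hr
  exact hF (by rw [hC, hr, map_zero])

lemma pderiv_slice {ι : Type} (i : ι) (G : MvPolynomial (Option ι) ℂ) :
    pderiv i (MvPolynomial.aeval (fun o : Option ι => o.elim 1 MvPolynomial.X) G :
      MvPolynomial ι ℂ) =
      MvPolynomial.aeval (fun o : Option ι => o.elim 1 MvPolynomial.X) (pderiv (some i) G) := by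
  classical
  induction G using MvPolynomial.induction_on with
  | C r => simp
  | add p q hp hq => simp only [map_add, hp, hq]
  | mul_X p o hp =>
    rw [MvPolynomial.aeval_eq_bind₁] at hp
    rcases o with _ | j
    · simp [Derivation.leibniz, hp, MvPolynomial.pderiv_X]
    · by_cases h : j = i
      · subst h
        simp [Derivation.leibniz, hp]
      · simp [Derivation.leibniz, hp, MvPolynomial.pderiv_X, h]

lemma aeval_slice {ι K : Type} [CommRing K] [Algebra ℂ K] (y : ι → K)
    (G : MvPolynomial (Option ι) ℂ) :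
    MvPolynomial.aeval y (MvPolynomial.aeval (fun o : Option ι => o.elim 1 MvPolynomial.X) G :
      MvPolynomial ι ℂ) = MvPolynomial.aeval (fun o : Option ι => o.elim 1 y) G := by
  induction G using MvPolynomial.induction_on with
  | C r => simp
  | add p q hp hq => simp only [map_add, hp, hq]
  | mul_X p o hp =>
    rw [MvPolynomial.aeval_eq_bind₁] at hp
    rcases o with _ | j <;> simp [hp]

lemma aeval_expand {σ : Type} (J : ℕ) (x : σ → ℂ[X]) (G : MvPolynomial σ ℂ) :
    MvPolynomial.aeval (fun o => expand ℂ J (x o)) G = expand ℂ J (MvPolynomial.aeval x G) := by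
  induction G using MvPolynomial.induction_on with
  | C r => simp
  | add p q hp hq => simp only [map_add, hp, hq]
  | mul_X p o hp => simp only [map_mul, hp, MvPolynomial.aeval_X]

/-- normalising the degrees -/
lemma finish {ι : Type} [Fintype ι] {W : Option ι → ℕ} (hW : ∀ o, 0 < W o)
    {G : MvPolynomial (Option ι) ℂ} {r : Option ι → ℂ} {x : Option ι → ℂ[X]}
    (h1 : x none = C 1) (h2 : ∀ o, (x o).coeff 0 = r o) (h3 : MvPolynomial.aeval x G = 0)
    (h4 : ∃ i, 0 < (x (some i)).natDegree) :
    ∃ (e : ℕ) (x : Option ι → ℂ[X]) (v : Option ι → ℂ), 0 < e ∧ v ≠ 0 ∧ v none = 0 ∧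
      (∀ o, (x o).natDegree ≤ e * W o) ∧ (∀ o, (x o).coeff 0 = r o) ∧
      (∀ o, (x o).coeff (e * W o) = v o) ∧ MvPolynomial.aeval x G = 0 ∧ x none = C 1 := by
  obtain ⟨i1, hi1⟩ := h4
  obtain ⟨o0, -, ho0⟩ := Finset.exists_max_image Finset.univ
    (fun o : Option ι => ((x o).natDegree : ℚ) / W o) ⟨none, Finset.mem_univ _⟩
  have hle : ∀ o, (x o).natDegree * W o0 ≤ (x o0).natDegree * W o := fun o => by
    have := ho0 o (Finset.mem_univ _)
    rw [div_le_div_iff₀ (by exact_mod_cast hW o) (by exact_mod_cast hW o0)] at this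
    exact_mod_cast this
  have he : 0 < (x o0).natDegree := by
    have := (Nat.mul_pos hi1 (hW o0)).trans_le (hle (some i1))
    exact Nat.pos_of_mul_pos_right this
  have hn : expand ℂ (W o0) (x none) = C 1 := by rw [h1, expand_C]
  refine ⟨(x o0).natDegree, fun o => expand ℂ (W o0) (x o),
    fun o => (expand ℂ (W o0) (x o)).coeff ((x o0).natDegree * W o), he, ?_, ?_, fun o => ?_,
    fun o => ?_, fun o => rfl, ?_, hn⟩
  · intro h0
    have := congrFun h0 o0
    simp only [coeff_expand_mul (hW o0), Pi.zero_apply] at this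
    rw [← leadingCoeff, leadingCoeff_eq_zero] at this
    rw [this, natDegree_zero] at he
    exact lt_irrefl _ he
  · simp only [hn]
    exact coeff_C_of_ne_zero (Nat.mul_pos he (hW none)).ne'
  · rw [natDegree_expand]; exact hle o
  · rw [coeff_expand (hW o0), if_pos (dvd_zero _), Nat.zero_div, h2]
  · rw [aeval_expand, h3, map_zero]

end TailA

open TailA in
theorem tail : Gen → Lim → Tail := by
  intro hGen hLim ι _ W d hW hι G hG hgood r hr1 hr0 hsm
  obtain ⟨i0, hi0⟩ := hsm
  have hre : (fun o : Option ι => o.elim 1 fun i => r (some i)) = r := by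
    funext o
    rcases o with _ | i
    · exact hr1.symm
    · rfl
  have hev : ∀ H : MvPolynomial (Option ι) ℂ, MvPolynomial.eval (fun i => r (some i))
      (MvPolynomial.aeval (fun o : Option ι => o.elim 1 MvPolynomial.X) H : MvPolynomial ι ℂ) =
        MvPolynomial.eval r H := fun H => by
    have := aeval_slice (fun i => r (some i)) H
    rwa [hre, MvPolynomial.aeval_eq_eval, MvPolynomial.aeval_eq_eval] at this
  have hf0 : (MvPolynomial.aeval (fun o : Option ι => o.elim 1 MvPolynomial.X) G :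
      MvPolynomial ι ℂ) ≠ 0 := by
    intro h0
    refine hi0 ?_
    rw [← hev, ← pderiv_slice, h0, map_zero, map_zero]
  obtain ⟨F, hF, hFd, hFr⟩ := prime_factor (fun i => r (some i)) _ hf0 (by rw [hev, hr0])
  obtain ⟨K, _, _, _, y, hy⟩ := generic hF
  have htr : ∃ i, y i ∉ Set.range (algebraMap ℂ K) := by
    by_contra hcon
    push Not at hcon
    choose c hc using hcon
    refine not_all hι hF.ne_zero hFr c fun i => (hy _).1 ?_
    rw [map_sub, MvPolynomial.aeval_X, MvPolynomial.aeval_C, hc, sub_self]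
  obtain ⟨e, z, π, hz, hzn⟩ := hGen ι W d hW G hG hgood K (fun o : Option ι => o.elim 1 y) rfl
    (by rw [← aeval_slice]; exact (hy _).2 hFd) htr
  have hGK := homog_map (algebraMap ℂ K) hG
  obtain ⟨-, -, -, h, hh⟩ := ends2 K ι W d e hW _ hGK z _ π hz
  have hdeg : ∃ i, 0 < (z (some i)).natDegree := by
    by_contra hcon
    push Not at hcon
    have hπ : π = 0 := by
      funext o
      rw [← hz.stop o]
      refine coeff_eq_zero_of_natDegree_lt (lt_of_le_of_lt ?_ (Nat.mul_pos hz.pos (hW.pos o)))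
      rcases o with _ | i
      · rw [hzn, natDegree_C]
      · exact hcon i
    rw [hπ, Finset.sum_eq_zero fun i _ => by
      rw [eval_zero_of_pos (homog_pderiv hGK (some i) (hW.lt i).le)
        (Nat.sub_pos_of_lt (hW.lt i)), zero_mul]] at hh
    exact zero_ne_one hh
  obtain ⟨x, hx1, hx2, hx3, hx4⟩ := hLim ι G K z hzn hz.eqn hdeg (fun i => r (some i)) (by
    intro f hf
    have h1 : (fun i => (z (some i)).coeff 0) = y := funext fun i => hz.start (some i)
    rw [h1, hy] at hf
    obtain ⟨A, rfl⟩ := hf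
    rw [map_mul, hFr, zero_mul])
  refine finish hW.pos hx1 (fun o => ?_) hx3 hx4
  rcases o with _ | i
  · rw [hx1, hr1, coeff_C_zero]
  · exact hx2 i

end Pool.Agent.MP_776d16_ag.H34T
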