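import Pool.Agent.MP_776d16_ag.H34T.Spec

/-
Twisting, pulling back along a power map and reparametrising very free curves.
-/

namespace Pool.Agent.MP_776d16_ag.H34T

open Polynomial Pool.Agent.MP_776d16_ag.H34 Pool.Agent.MP_776d16_ag.H34G
open MvPolynomial (pderiv IsWeightedHomogeneous)

namespace TwistA

/-- the polynomials that are reached -/
def Rch {ι : Type} [Fintype ι] (L : ι → ℂ[X]) (n : ι → ℕ) : Submodule ℂ ℂ[X] where
  carrier := {f | ∃ h : ι → ℂ[X], (∀ i, (h i).degree < (n i : WithBot ℕ)) ∧ f = ∑ i, L i * h i}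
  add_mem' := by
    rintro _ _ ⟨h, h1, rfl⟩ ⟨g, g1, rfl⟩
    exact ⟨fun i => h i + g i, fun i => (degree_add_le _ _).trans_lt (max_lt (h1 i) (g1 i)), by
      simp only [mul_add, Finset.sum_add_distrib]⟩
  zero_mem' := ⟨0, fun i => by simp, by simp⟩
  smul_mem' := by
    rintro c _ ⟨h, h1, rfl⟩
    exact ⟨fun i => c • h i, fun i => (degree_smul_le _ _).trans_lt (h1 i), by
      simp only [mul_smul_comm, Finset.smul_sum]⟩

theorem onto_of_pow {ι : Type} [Fintype ι] {L : ι → ℂ[X]} {N : ℕ} {n : ι → ℕ}
    (h : ∀ k < N, X ^ k ∈ Rch L n) : Onto L N n := by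
  intro f hf
  have : f ∈ Rch L n := by
    rw [as_sum_support_C_mul_X_pow f]
    refine Submodule.sum_mem _ fun k hk => ?_
    rw [← smul_eq_C_mul]
    refine Submodule.smul_mem _ _ (h k ?_)
    exact_mod_cast (le_degree_of_mem_supp k hk).trans_lt hf
  exact this

theorem deg_lt {f : ℂ[X]} {m : ℕ} (h : f.natDegree < m) : f.degree < (m : WithBot ℕ) :=
  degree_le_natDegree.trans_lt (by exact_mod_cast h)

theorem bezout {ι : Type} [Fintype ι] (L : ι → ℂ[X]) (h : ∀ s : ℂ, ∃ i, (L i).eval s ≠ 0) :
    ∃ A : ι → ℂ[X], ∑ i, A i * L i = 1 := by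
  rw [← Ideal.mem_span_range_iff_exists_fun]
  obtain ⟨g, hg⟩ := (IsPrincipalIdealRing.principal (Ideal.span (Set.range L))).principal
  have hu : IsUnit g := by
    rw [isUnit_iff_degree_eq_zero]
    by_contra hd
    obtain ⟨s, hs⟩ := IsAlgClosed.exists_root g hd
    obtain ⟨i, hi⟩ := h s
    have : L i ∈ Ideal.span {g} := by
      have h1 : L i ∈ Ideal.span (Set.range L) := Ideal.subset_span ⟨i, rfl⟩
      rwa [hg] at h1
    exact hi (hs.dvd (Ideal.mem_span_singleton.1 this))
  rw [hg]
  exact Ideal.mem_span_singleton.2 hu.dvd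

theorem aeval_hom {σ : Type} (φ : ℂ[X] →ₐ[ℂ] ℂ[X]) (z : σ → ℂ[X]) (G : MvPolynomial σ ℂ) :
    MvPolynomial.aeval (fun o => φ (z o)) G = φ (MvPolynomial.aeval z G) :=
  (MvPolynomial.comp_aeval_apply z φ G).symm

theorem comp_deg {f : ℂ[X]} {m : ℕ} (c : ℂ) (h : f.degree < (m : WithBot ℕ)) :
    (f.comp (C c * X)).degree < (m : WithBot ℕ) := by
  rw [degree_lt_iff_coeff_zero] at h ⊢
  intro k hk
  rw [comp_C_mul_X_coeff, h k hk, zero_mul]

end TwistA

open TwistA

theorem serre : Serre := by
  intro ι _ L N n hn hL hs ⟨i0, hi0⟩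
  classical
  obtain ⟨A, hA⟩ := bezout L hs
  let c := Finset.univ.sup fun i => (A i).natDegree
  have hc : ∀ i, (A i).natDegree ≤ c := fun i =>
    Finset.le_sup (f := fun i => (A i).natDegree) (Finset.mem_univ i)
  refine ⟨N + c + 1, by omega, ?_⟩
  have key : ∀ m, m ≤ N + (N + c + 1) - 1 → ∀ f : ℂ[X], f.degree < (m : WithBot ℕ) →
      f ∈ Rch L fun i => n i + (N + c + 1) - 1 := by
    intro m
    induction m with
    | zero =>
      intro _ f hf
      have : f = 0 := by simpa using hf
      rw [this]
      exact Submodule.zero_mem _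
    | succ m ih =>
      intro hm f hf
      by_cases hN : m < N
      · have h1 : f.natDegree ≤ m := by
          rw [natDegree_le_iff_degree_le]
          exact Order.le_of_lt_succ hf
        refine ⟨fun i => A i * f, fun i => deg_lt ?_, ?_⟩
        · have h2 : (A i * f).natDegree ≤ (A i).natDegree + f.natDegree := natDegree_mul_le
          have := hc i
          beta_reduce
          omega
        · conv_lhs => rw [← one_mul f, ← hA, Finset.sum_mul]
          exact Finset.sum_congr rfl fun i _ => by ring
      · have h0 := hn i0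
        set s := m - (N - n i0) with hs'
        set t := f.coeff m / (L i0).coeff (N - n i0) with ht
        have h1 : L i0 * (C t * X ^ s) ∈ Rch L fun i => n i + (N + c + 1) - 1 := by
          refine ⟨Pi.single i0 (C t * X ^ s), fun i => ?_, ?_⟩
          · by_cases e : i = i0
            · subst e
              rw [Pi.single_eq_same]
              refine deg_lt ((natDegree_C_mul_X_pow_le _ _).trans_lt ?_)
              beta_reduce
              omega
            · rw [Pi.single_eq_of_ne e]
              simp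
          · rw [Finset.sum_eq_single i0 (fun i _ e => by rw [Pi.single_eq_of_ne e, mul_zero])
              (by simp), Pi.single_eq_same]
        have h2 : f - L i0 * (C t * X ^ s) ∈ Rch L fun i => n i + (N + c + 1) - 1 := by
          refine ih (by omega) _ ?_
          rw [degree_lt_iff_coeff_zero] at hf ⊢
          intro k hk
          have e1 : k = (k - s) + s := by omega
          have e2 : (L i0 * (C t * X ^ s)).coeff k = (L i0).coeff (k - s) * t := by
            rw [← mul_assoc]
            conv_lhs => rw [e1]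
            rw [coeff_mul_X_pow, coeff_mul_C]
          rw [coeff_sub, e2]
          rcases eq_or_lt_of_le hk with e | e
          · have e3 : k - s = N - n i0 := by omega
            rw [e3, ht, mul_div_cancel₀ _ hi0, ← e, sub_self]
          · rw [hf k (by omega), coeff_eq_zero_of_natDegree_lt ((hL i0).trans_lt (by omega)),
              zero_mul, sub_zero]
        have := Submodule.add_mem _ h2 h1
        rwa [sub_add_cancel] at this
  exact fun f hf => key _ le_rfl f hf

theorem expand' : Expand := by
  intro ι _ W d e J hW hJ G y v π h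
  refine ⟨fun o => ?_, fun o => ?_, fun o => ?_, ?_, fun o b h1 h2 => ?_, onto_of_pow ?_⟩
  · rw [natDegree_expand, mul_comm, mul_assoc]
    exact Nat.mul_le_mul_left _ (h.deg o)
  · have := coeff_expand_mul' hJ (y o) 0
    rwa [mul_zero, h.start] at this
  · rw [mul_assoc, coeff_expand_mul' hJ, h.stop]
  · rw [aeval_hom, h.eqn, map_zero]
  · rw [coeff_expand hJ, if_neg fun hd => absurd (Nat.le_of_dvd h1 hd) (by omega)]
  · intro k hk
    have h1 : k / J < e * d - 1 := by
      rw [Nat.div_lt_iff_lt_mul hJ, Nat.sub_mul, one_mul, mul_comm (e * d), ← mul_assoc]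
      exact hk
    obtain ⟨H, h2, h3⟩ := h.vf (X ^ (k / J)) (deg_lt (by rwa [natDegree_X_pow]))
    refine ⟨fun i => X ^ (k % J) * expand ℂ J (H i), fun i => ?_, ?_⟩
    · rcases eq_or_ne (H i) 0 with h0 | h0
      · simp [h0]
      have h4 := (natDegree_lt_iff_degree_lt h0).2 (h2 i)
      refine deg_lt (natDegree_mul_le.trans_lt ?_)
      rw [natDegree_X_pow, natDegree_expand]
      have h5 := Nat.mod_lt k hJ
      have h6 : ((H i).natDegree + 1 + 1) * J ≤ (e * W (some i)) * J :=
        Nat.mul_le_mul_right _ (by omega)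
      rw [mul_comm (e * W (some i)), ← mul_assoc, add_mul, add_mul, one_mul] at h6
      beta_reduce
      omega
    · have h4 := congrArg (expand ℂ J) h3
      rw [map_pow, expand_X, ← pow_mul, map_sum] at h4
      conv_lhs => rw [← Nat.mod_add_div k J, pow_add, h4, Finset.mul_sum]
      refine Finset.sum_congr rfl fun i _ => ?_
      beta_reduce
      rw [aeval_hom, map_mul]
      ring

theorem reparam : Reparam := by
  intro ι _ W d e G z r π c hc h
  have ha : ∀ F : MvPolynomial (Option ι) ℂ,
      MvPolynomial.aeval (fun o => (z o).comp (C c * X)) F =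
        (MvPolynomial.aeval z F).comp (C c * X) := fun F => by
    simp only [comp_eq_aeval]
    exact aeval_hom _ z F
  refine ⟨h.pos, fun o => ?_, fun o => ?_, fun o => ?_, ?_, fun f hf => ?_⟩
  · rw [natDegree_le_iff_coeff_eq_zero]
    intro k hk
    rw [comp_C_mul_X_coeff, coeff_eq_zero_of_natDegree_lt ((h.deg o).trans_lt hk), zero_mul]
  · rw [comp_C_mul_X_coeff, h.start, pow_zero, mul_one]
  · rw [comp_C_mul_X_coeff, h.stop, mul_comm]
  · rw [ha, h.eqn, zero_comp]
  · obtain ⟨H, h1, h2⟩ := h.vf _ (comp_deg c⁻¹ hf)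
    refine ⟨fun i => (H i).comp (C c * X), fun i => comp_deg c (h1 i), ?_⟩
    have h3 := congrArg (fun p => p.comp (C c * X)) h2
    simp only [comp_assoc, mul_comp, C_comp, X_comp, ← mul_assoc, ← C_mul, inv_mul_cancel₀ hc,
      C_1, one_mul, comp_X, Polynomial.sum_comp] at h3
    rw [h3]
    exact Finset.sum_congr rfl fun i _ => by rw [ha]

end Pool.Agent.MP_776d16_ag.H34T
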