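import Pool.Agent.MP_776d16_ag.H34T.SL
import Pool.Agent.MP_776d16_ag.H34T.Twist
import Pool.Agent.MP_776d16_ag.H36T.Up
import Pool.Agent.MP_776d16_ag.H34T.Gen
import Pool.Agent.MP_776d16_ag.H34T.Lim
import Pool.Agent.MP_776d16_ag.H34T.Tail
import Pool.Agent.MP_776d16_ag.H34T.Bdry
import Pool.Agent.MP_776d16_ag.H34T.All

namespace Pool.Agent.MP_776d16_ag.H34T

theorem all' : All :=
  all serre expand' reparam Pool.Agent.MP_776d16_ag.H36T.upgrade (tail (gen specPt) (lim specPt))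

open Pool.Agent.MP_776d16_ag.H34 Pool.Agent.MP_776d16_ag.H34G in
lemma wg_of {ι : Type} [Fintype ι] {a w : ι → ℕ} {d : ℕ} (h : Wt a w d) {W : Option ι → ℕ}
    (hW : ∀ i, W (some i) = w i) (h0 : 0 < W none) : Wg W d := by
  have h1 : Wf a d (fun o : Option ι => o.elim 1 w) d := ⟨h, mul_one d⟩
  refine ⟨fun o => ?_, fun i => hW i ▸ h1.wg.lt i, h1.wg.two⟩
  rcases o with _ | i
  · exact h0
  · exact hW i ▸ h1.wg.pos (some i)

end Pool.Agent.MP_776d16_ag.H34T
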