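import Pool.Agent.MP_776d16_ag.H34T.Spec

namespace Pool.Agent.MP_776d16_ag.H34T

open Polynomial Pool.Agent.MP_776d16_ag.H34
open Pool.Agent.MP_776d16_ag.H34.SLA (fam_map fam_add fam_smul)
open Pool.Agent.MP_776d16_ag.H34G.SLA2 (taylor fam_mul)
open Pool.Agent.MP_776d16_ag.H34G (eval_map_hom)
open MvPolynomial (pderiv)

namespace SLA3

section
variable {R ι β : Type} [CommRing R] [Fintype ι] (a : β → MvPolynomial ι R[X]) (k : ι → ℕ)
  (P0 : β → ι → R[X]) (p : β → ∀ i, Fin (k i) → R[X]) (pos : β → ℕ)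

/-- value of the system -/
noncomputable def Fv (B : Type) [CommRing B] [Algebra R B] (x : ∀ i, Fin (k i) → B) (b : β) : B :=
  (MvPolynomial.eval (fun i => fam (P0 b i) (p b i) B (x i))
    (MvPolynomial.map (mapRingHom (algebraMap R B)) (a b))).coeff (pos b)

/-- tangent map of the system -/
noncomputable def Jl (B : Type) [CommRing B] [Algebra R B] (x : ∀ i, Fin (k i) → B) (b : β) :
    (∀ i, Fin (k i) → B) →ₗ[B] B where
  toFun h := (∑ i, MvPolynomial.eval (fun i => fam (P0 b i) (p b i) B (x i))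
      (pderiv i (MvPolynomial.map (mapRingHom (algebraMap R B)) (a b))) *
        fam 0 (p b i) B (h i)).coeff (pos b)
  map_add' h h' := by
    simp only [Pi.add_apply, fam_add, mul_add, Finset.sum_add_distrib, coeff_add]
  map_smul' c h := by
    simp only [Pi.smul_apply, fam_smul, RingHom.id_apply, smul_eq_mul]
    rw [← coeff_C_mul, Finset.mul_sum]
    congr 1
    exact Finset.sum_congr rfl fun i _ => by ring

variable {B B' : Type} [CommRing B] [Algebra R B] [CommRing B'] [Algebra R B']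

omit [Fintype ι] in
lemma ev_map (φ : B →ₐ[R] B') (x : ∀ i, Fin (k i) → B) (b : β) (F : MvPolynomial ι R[X]) :
    (MvPolynomial.eval (fun i => fam (P0 b i) (p b i) B (x i))
      (MvPolynomial.map (mapRingHom (algebraMap R B)) F)).map (φ : B →+* B') =
    MvPolynomial.eval (fun i => fam (P0 b i) (p b i) B' (fun l => φ (x i l)))
      (MvPolynomial.map (mapRingHom (algebraMap R B')) F) := by
  have h : (φ : B →+* B').comp (algebraMap R B) = algebraMap R B' := φ.comp_algebraMap
  have h1 := eval_map_hom (mapRingHom (φ : B →+* B')) (fun i => fam (P0 b i) (p b i) B (x i))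
    (MvPolynomial.map (mapRingHom (algebraMap R B)) F)
  rw [MvPolynomial.map_map, mapRingHom_comp, h] at h1
  simp only [coe_mapRingHom, fam_map] at h1
  exact h1.symm

omit [Fintype ι] in
lemma Fv_map (φ : B →ₐ[R] B') (x : ∀ i, Fin (k i) → B) (b : β) :
    φ (Fv a k P0 p pos B x b) = Fv a k P0 p pos B' (fun i l => φ (x i l)) b := by
  have : φ (Fv a k P0 p pos B x b) = (φ : B →+* B') (Fv a k P0 p pos B x b) := rfl
  rw [this, Fv, ← coeff_map, ev_map, Fv]

lemma Jl_map (φ : B →ₐ[R] B') (x h : ∀ i, Fin (k i) → B) (b : β) :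
    φ (Jl a k P0 p pos B x b h) =
      Jl a k P0 p pos B' (fun i l => φ (x i l)) b (fun i l => φ (h i l)) := by
  have : φ (Jl a k P0 p pos B x b h) = (φ : B →+* B') (Jl a k P0 p pos B x b h) := rfl
  rw [this]
  simp only [Jl, LinearMap.coe_mk, AddHom.coe_mk]
  rw [← coeff_map, Polynomial.map_sum]
  simp only [Polynomial.map_mul, fam_map, MvPolynomial.pderiv_map, ev_map]

lemma Fv_add (x h : ∀ i, Fin (k i) → B) (hh : ∀ i l i' l', h i l * h i' l' = 0) (b : β) :
    Fv a k P0 p pos B (x + h) b = Fv a k P0 p pos B x b + Jl a k P0 p pos B x b h := by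
  simp only [Fv, Jl, LinearMap.coe_mk, AddHom.coe_mk]
  have h1 : (fun i => fam (P0 b i) (p b i) B ((x + h) i)) =
      (fun i => fam (P0 b i) (p b i) B (x i)) + fun i => fam 0 (p b i) B (h i) := by
    funext i
    simp only [Pi.add_apply, fam_add]
  have h2 := taylor (fun i => fam (P0 b i) (p b i) B (x i)) (fun i => fam 0 (p b i) B (h i))
    (fun i i' => fam_mul _ _ _ _ (hh i · i'))
    (MvPolynomial.map (mapRingHom (algebraMap R B)) (a b))
  simp only [MvPolynomial.aeval_eq_eval] at h2
  rw [← coeff_add, h1, h2]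

variable [Fintype β] [DecidableEq β]

/-- a solution together with a right inverse of the tangent map -/
def Pt (B : Type) [CommRing B] [Algebra R B] (x : ∀ i, Fin (k i) → B)
    (Y : β → ∀ i, Fin (k i) → B) : Prop :=
  (∀ b, Fv a k P0 p pos B x b = 0) ∧
    ∀ c b, Jl a k P0 p pos B x b (Y c) = if c = b then 1 else 0

omit [Fintype β] in
lemma Pt.map (φ : B →ₐ[R] B') {x : ∀ i, Fin (k i) → B} {Y : β → ∀ i, Fin (k i) → B}
    (h : Pt a k P0 p pos B x Y) :
    Pt a k P0 p pos B' (fun i l => φ (x i l)) (fun c i l => φ (Y c i l)) := by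
  refine ⟨fun b => ?_, fun c b => ?_⟩
  · rw [← Fv_map, h.1, map_zero]
  · rw [← Jl_map, h.2]; split_ifs <;> simp

lemma newton (I : Ideal B) (hI : I ^ 2 = ⊥) (x : ∀ i, Fin (k i) → B ⧸ I)
    (Y : β → ∀ i, Fin (k i) → B ⧸ I) (h : Pt a k P0 p pos (B ⧸ I) x Y) :
    ∃ (x' : ∀ i, Fin (k i) → B) (Y' : β → ∀ i, Fin (k i) → B), Pt a k P0 p pos B x' Y' ∧
      (∀ i l, Ideal.Quotient.mkₐ R I (x' i l) = x i l) ∧
      ∀ c i l, Ideal.Quotient.mkₐ R I (Y' c i l) = Y c i l := by
  have hmul : ∀ u ∈ I, ∀ v ∈ I, u * v = 0 := by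
    intro u hu v hv
    have : u * v ∈ I ^ 2 := by rw [sq]; exact Ideal.mul_mem_mul hu hv
    rwa [hI, Ideal.mem_bot] at this
  have hsurj := Ideal.Quotient.mkₐ_surjective R I
  choose x1 hx1 using fun i l => hsurj (x i l)
  choose Y1 hY1 using fun c i l => hsurj (Y c i l)
  have hmem : ∀ u : B, Ideal.Quotient.mkₐ R I u = 0 ↔ u ∈ I := fun u => by
    rw [Ideal.Quotient.mkₐ_eq_mk, Ideal.Quotient.eq_zero_iff_mem]
  -- errors of the tangent equations, for any lift
  have hG : ∀ x2 : ∀ i, Fin (k i) → B, (∀ i l, Ideal.Quotient.mkₐ R I (x2 i l) = x i l) →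
      ∀ c b, Jl a k P0 p pos B x2 b (Y1 c) - (if c = b then 1 else 0) ∈ I := by
    intro x2 hx2 c b
    rw [← hmem, map_sub, Jl_map]
    simp only [hx2, hY1]
    rw [h.2]; split_ifs <;> simp
  set E : β → B := fun b => Fv a k P0 p pos B x1 b with hE
  have hEI : ∀ b, E b ∈ I := by
    intro b
    rw [← hmem, hE]
    simp only [Fv_map, hx1]
    rw [h.1]
  set H : ∀ i, Fin (k i) → B := -∑ c, E c • Y1 c with hH
  have hHI : ∀ i l, H i l ∈ I := by
    intro i l
    simp only [hH, Pi.neg_apply, Finset.sum_apply, Pi.smul_apply, smul_eq_mul]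
    exact I.neg_mem (I.sum_mem fun c _ => I.mul_mem_right _ (hEI c))
  have hx2 : ∀ i l, Ideal.Quotient.mkₐ R I ((x1 + H) i l) = x i l := by
    intro i l
    rw [Pi.add_apply, Pi.add_apply, map_add, hx1, (hmem _).2 (hHI i l), add_zero]
  set G : β → β → B := fun c b =>
    Jl a k P0 p pos B (x1 + H) b (Y1 c) - (if c = b then 1 else 0) with hGdef
  have hGI : ∀ c b, G c b ∈ I := hG _ hx2
  refine ⟨x1 + H, fun c => Y1 c - ∑ c', G c c' • Y1 c', ⟨fun b => ?_, fun c b => ?_⟩, hx2, ?_⟩
  · rw [Fv_add _ _ _ _ _ _ _ fun i l i' l' => hmul _ (hHI i l) _ (hHI i' l'), hH, map_neg,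
      map_sum]
    have : ∀ c, Jl a k P0 p pos B x1 b (E c • Y1 c) = if c = b then E b else 0 := by
      intro c
      have h1 := hmul _ (hEI c) _ (hG x1 hx1 c b)
      rw [map_smul, smul_eq_mul]
      split_ifs at h1 ⊢ with hc
      · subst hc; linear_combination h1
      · linear_combination h1
    simp only [this, Finset.sum_ite_eq', Finset.mem_univ, if_true]
    simp only [hE]
    ring
  · rw [map_sub, map_sum]
    have : ∀ c', Jl a k P0 p pos B (x1 + H) b (G c c' • Y1 c') = if c' = b then G c b else 0 := by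
      intro c'
      have h1 := hmul _ (hGI c c') _ (hGI c' b)
      rw [map_smul, smul_eq_mul]
      have h2 : G c' b = Jl a k P0 p pos B (x1 + H) b (Y1 c') - (if c' = b then 1 else 0) := rfl
      rw [h2] at h1
      split_ifs at h1 ⊢ with hc
      · subst hc; linear_combination h1
      · linear_combination h1
    simp only [this, Finset.sum_ite_eq', Finset.mem_univ, if_true]
    simp only [hGdef]
    ring
  · intro c i l
    have : (∑ c', G c c' • Y1 c') i l ∈ I := by
      simp only [Finset.sum_apply, Pi.smul_apply, smul_eq_mul]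
      exact I.sum_mem fun c' _ => I.mul_mem_right _ (hGI c c')
    change Ideal.Quotient.mkₐ R I (Y1 c i l - (∑ c', G c c' • Y1 c') i l) = _
    rw [map_sub, hY1, (hmem _).2 this, sub_zero]

/-- variables of the universal algebra -/
abbrev Var (β : Type) {ι : Type} (k : ι → ℕ) : Type := Option β × (Σ i, Fin (k i))

/-- relations of the universal algebra -/
noncomputable def rel : Option β × β → MvPolynomial (Var β k) R
  | (none, b) => Fv a k P0 p pos _ (fun i l => MvPolynomial.X (none, ⟨i, l⟩)) b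
  | (some c, b) => Jl a k P0 p pos _ (fun i l => MvPolynomial.X (none, ⟨i, l⟩)) b
      (fun i l => MvPolynomial.X (some c, ⟨i, l⟩)) - if c = b then 1 else 0

/-- the universal algebra -/
abbrev UA : Type := MvPolynomial (Var β k) R ⧸ Ideal.span (Set.range (rel a k P0 p pos))

/-- universal solution -/
noncomputable def ux (o : Option β) (i : ι) (l : Fin (k i)) : UA a k P0 p pos :=
  Ideal.Quotient.mkₐ R _ (MvPolynomial.X (o, ⟨i, l⟩))

omit [Fintype β] in
lemma ux_pt : Pt a k P0 p pos (UA a k P0 p pos) (ux a k P0 p pos none)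
    (fun c => ux a k P0 p pos (some c)) := by
  have h0 : ∀ j, Ideal.Quotient.mkₐ R (Ideal.span (Set.range (rel a k P0 p pos)))
      (rel a k P0 p pos j) = 0 := fun j => by
    rw [Ideal.Quotient.mkₐ_eq_mk, Ideal.Quotient.eq_zero_iff_mem]
    exact Ideal.subset_span ⟨j, rfl⟩
  refine ⟨fun b => ?_, fun c b => ?_⟩
  · have := h0 (none, b)
    rw [rel, Fv_map] at this
    exact this
  · have := h0 (some c, b)
    rw [rel, map_sub, Jl_map, sub_eq_zero] at this
    refine this.trans ?_
    split_ifs <;> simp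

omit [Fintype β] in
lemma ux_lift {x : ∀ i, Fin (k i) → B} {Y : β → ∀ i, Fin (k i) → B}
    (h : Pt a k P0 p pos B x Y) : ∃ f : UA a k P0 p pos →ₐ[R] B,
      (∀ i l, f (ux a k P0 p pos none i l) = x i l) ∧
      ∀ c i l, f (ux a k P0 p pos (some c) i l) = Y c i l := by
  let g : MvPolynomial (Var β k) R →ₐ[R] B :=
    MvPolynomial.aeval fun v => v.1.elim (x v.2.1 v.2.2) fun c => Y c v.2.1 v.2.2
  have hg : ∀ u ∈ Ideal.span (Set.range (rel a k P0 p pos)), g u = 0 := by
    intro u hu
    have : Ideal.span (Set.range (rel a k P0 p pos)) ≤ RingHom.ker g := by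
      rw [Ideal.span_le]
      rintro _ ⟨⟨o, b⟩, rfl⟩
      rw [SetLike.mem_coe, RingHom.mem_ker]
      rcases o with _ | c
      · rw [rel, Fv_map]
        simpa [g] using h.1 b
      · rw [rel, map_sub, Jl_map, sub_eq_zero]
        have h2 := h.2 c b
        simp only [g, MvPolynomial.aeval_X, Option.elim]
        refine h2.trans ?_
        split_ifs <;> simp
    exact this hu
  refine ⟨Ideal.Quotient.liftₐ _ g hg, fun i l => ?_, fun c i l => ?_⟩ <;> simp [ux, g]

lemma ua_smooth : Algebra.Smooth R (UA a k P0 p pos) where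
  formallySmooth := by
    refine Algebra.FormallySmooth.of_comp_surjective fun B _ _ I hI g => ?_
    obtain ⟨x', Y', hpt, hx, hY⟩ := newton a k P0 p pos I hI _ _
      ((ux_pt a k P0 p pos).map a k P0 p pos g)
    obtain ⟨f, hf1, hf2⟩ := ux_lift a k P0 p pos hpt
    refine ⟨f, Ideal.Quotient.algHom_ext _ (MvPolynomial.algHom_ext ?_)⟩
    rintro ⟨o, i, l⟩
    rcases o with _ | c
    · exact (congrArg (Ideal.Quotient.mkₐ R I) (hf1 i l)).trans (hx i l)
    · exact (congrArg (Ideal.Quotient.mkₐ R I) (hf2 c i l)).trans (hY c i l)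
  finitePresentation :=
    Algebra.FinitePresentation.quotient (Submodule.fg_span (Set.finite_range _))

end

end SLA3

open SLA3 in
theorem sl3 : SL3 := by
  intro R ι β _ _ _ a k P0 p pos k0 _ _ x0 h0
  classical
  choose Y0 hY0 using fun c : β => h0.2 (fun b => if c = b then 1 else 0)
  have hpt : Pt a k P0 p pos k0 x0 Y0 := ⟨h0.1, fun c b => hY0 c b⟩
  obtain ⟨φ, hφ, -⟩ := ux_lift a k P0 p pos hpt
  have hs := ua_smooth a k P0 p pos
  have hu := ux_pt a k P0 p pos
  refine ⟨UA a k P0 p pos, inferInstance, inferInstance, inferInstance, inferInstance,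
    ux a k P0 p pos none, φ, hφ, hu.1, fun v => ⟨∑ c, v c • ux a k P0 p pos (some c),
      fun b => ?_⟩⟩
  change Jl a k P0 p pos _ (ux a k P0 p pos none) b _ = _
  rw [map_sum]
  simp only [map_smul, smul_eq_mul]
  have := hu.2
  simp only at this
  simp [this]

theorem tay2 : Tay2 := by
  intro S ι _ _ F x0 η
  let I : Ideal (MvPolynomial ι S) := Ideal.span {MvPolynomial.C η * MvPolynomial.C η}
  let π := Ideal.Quotient.mkₐ S I
  have h0 : π (MvPolynomial.C η) * π (MvPolynomial.C η) = 0 := by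
    rw [← map_mul, Ideal.Quotient.mkₐ_eq_mk, Ideal.Quotient.eq_zero_iff_mem]
    exact Ideal.mem_span_singleton_self _
  have h1 := taylor (fun i => π (MvPolynomial.C (x0 i)))
    (fun i => π (MvPolynomial.C η * MvPolynomial.X i)) (fun i i' => by
      rw [map_mul, map_mul, mul_mul_mul_comm, h0, zero_mul]) F
  have h2 : ∀ F' : MvPolynomial ι S, MvPolynomial.aeval (fun i => π (MvPolynomial.C (x0 i))) F' =
      π (MvPolynomial.C (MvPolynomial.eval x0 F')) := by
    intro F'
    have : (fun i => π (MvPolynomial.C (x0 i))) = fun i => Algebra.ofId S _ (x0 i) :=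
      funext fun i => π.commutes (x0 i)
    rw [this, ← MvPolynomial.comp_aeval_apply, MvPolynomial.aeval_eq_eval]
    exact (π.commutes _).symm
  have h3 : π (MvPolynomial.aeval
      (fun i => MvPolynomial.C (x0 i) + MvPolynomial.C η * MvPolynomial.X i) F -
      (MvPolynomial.C (MvPolynomial.eval x0 F) + MvPolynomial.C η *
        ∑ i, MvPolynomial.C (MvPolynomial.eval x0 (pderiv i F)) * MvPolynomial.X i)) = 0 := by
    rw [map_sub, MvPolynomial.comp_aeval_apply, sub_eq_zero]
    have : (fun i => π (MvPolynomial.C (x0 i) + MvPolynomial.C η * MvPolynomial.X i)) =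
        (fun i => π (MvPolynomial.C (x0 i))) +
          fun i => π (MvPolynomial.C η * MvPolynomial.X i) := funext fun i => map_add π _ _
    rw [this, h1]
    simp only [h2, map_add, map_mul, map_sum, Finset.mul_sum]
    congr 1
    exact Finset.sum_congr rfl fun i _ => by ring
  rw [Ideal.Quotient.mkₐ_eq_mk, Ideal.Quotient.eq_zero_iff_mem, Ideal.mem_span_singleton] at h3
  obtain ⟨Q, hQ⟩ := h3
  exact ⟨Q, by linear_combination hQ⟩

end Pool.Agent.MP_776d16_ag.H34T
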