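import Pool.Agent.MP_776d16_ag.H34G.Main

/-
Row statements for the theorem: every weighted hypersurface pair which is quasi-smooth off the
boundary and whose boundary is near the Fermat member is log rationally connected.
Plan: team store file 776d16_planT.md.
-/

namespace Pool.Agent.MP_776d16_ag.H34T

open Polynomial Pool.Agent.MP_776d16_ag.H34 Pool.Agent.MP_776d16_ag.H34G
open MvPolynomial (pderiv IsWeightedHomogeneous)

/- Row SL -/

/-- a solution of a system with polynomial coefficients at which the tangent map is onto -/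
def Sol3 {R ι β : Type} [CommRing R] [Fintype ι] (G : β → MvPolynomial ι R[X]) (k : ι → ℕ)
    (P0 : β → ι → R[X]) (p : β → ∀ i, Fin (k i) → R[X]) (pos : β → ℕ)
    (B : Type) [CommRing B] [Algebra R B] (x : ∀ i, Fin (k i) → B) : Prop :=
  (∀ b, (MvPolynomial.eval (fun i => fam (P0 b i) (p b i) B (x i))
    (MvPolynomial.map (mapRingHom (algebraMap R B)) (G b))).coeff (pos b) = 0) ∧
  ∀ v : β → B, ∃ h : ∀ i, Fin (k i) → B, ∀ b,
    (∑ i, MvPolynomial.eval (fun i => fam (P0 b i) (p b i) B (x i))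
      (pderiv i (MvPolynomial.map (mapRingHom (algebraMap R B)) (G b))) *
        fam 0 (p b i) B (h i)).coeff (pos b) = v b

def SL3 : Prop :=
  ∀ (R ι β : Type) [CommRing R] [Fintype ι] [Fintype β] (G : β → MvPolynomial ι R[X])
    (k : ι → ℕ) (P0 : β → ι → R[X]) (p : β → ∀ i, Fin (k i) → R[X])
    (pos : β → ℕ) (k0 : Type) [CommRing k0] [Algebra R k0] (x0 : ∀ i, Fin (k i) → k0),
    Sol3 G k P0 p pos k0 x0 →
    ∃ (A : Type) (_ : CommRing A) (_ : Algebra R A), Module.Flat R A ∧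
      Algebra.FinitePresentation R A ∧
      ∃ (x : ∀ i, Fin (k i) → A) (φ : A →ₐ[R] k0), (∀ i l, φ (x i l) = x0 i l) ∧
        Sol3 G k P0 p pos A x

/-- second order Taylor expansion along `x0 + η H` -/
def Tay2 : Prop :=
  ∀ (S ι : Type) [CommRing S] [Fintype ι] (F : MvPolynomial ι S) (x0 : ι → S) (η : S),
    ∃ Q : MvPolynomial ι S,
      MvPolynomial.aeval (fun i => MvPolynomial.C (x0 i) + MvPolynomial.C η * MvPolynomial.X i) F =
        MvPolynomial.C (MvPolynomial.eval x0 F) + MvPolynomial.C η *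
          (∑ i, MvPolynomial.C (MvPolynomial.eval x0 (pderiv i F)) * MvPolynomial.X i +
            MvPolynomial.C η * Q)

/- Row Twist -/

/-- `∑ L i * h i` reaches every polynomial of degree `< N` with `h i` of degree `< n i` -/
def Onto {ι : Type} [Fintype ι] (L : ι → ℂ[X]) (N : ℕ) (n : ι → ℕ) : Prop :=
  ∀ f : ℂ[X], f.degree < (N : WithBot ℕ) → ∃ h : ι → ℂ[X],
    (∀ i, (h i).degree < (n i : WithBot ℕ)) ∧ f = ∑ i, L i * h i

def Serre : Prop :=
  ∀ (ι : Type) [Fintype ι] (L : ι → ℂ[X]) (N : ℕ) (n : ι → ℕ), (∀ i, n i ≤ N) →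
    (∀ i, (L i).natDegree ≤ N - n i) → (∀ s : ℂ, ∃ i, (L i).eval s ≠ 0) →
    (∃ i, (L i).coeff (N - n i) ≠ 0) →
    ∃ j : ℕ, 0 < j ∧ Onto L (N + j - 1) (fun i => n i + j - 1)

def Expand : Prop :=
  ∀ (ι : Type) [Fintype ι] (W : Option ι → ℕ) (d e J : ℕ), Wg W d → 0 < J →
    ∀ (G : MvPolynomial (Option ι) ℂ) (y : Option ι → ℂ[X]) (v π : Option ι → ℂ),
    Crv2 W d e G y v π →
    (∀ o, (expand ℂ J (y o)).natDegree ≤ J * e * W o) ∧ (∀ o, (expand ℂ J (y o)).coeff 0 = v o) ∧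
    (∀ o, (expand ℂ J (y o)).coeff (J * e * W o) = π o) ∧
    MvPolynomial.aeval (fun o => expand ℂ J (y o)) G = 0 ∧
    (∀ o b, 0 < b → b < J → (expand ℂ J (y o)).coeff b = 0) ∧
    Onto (fun i => MvPolynomial.aeval (fun o => expand ℂ J (y o)) (pderiv (some i) G))
      (J * e * d - J) (fun i => J * e * W (some i) - J)

def Reparam : Prop :=
  ∀ (ι : Type) [Fintype ι] (W : Option ι → ℕ) (d e : ℕ) (G : MvPolynomial (Option ι) ℂ)
    (z : Option ι → ℂ[X]) (r π : Option ι → ℂ) (c : ℂ), c ≠ 0 → Crv2 W d e G z r π →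
    Crv2 W d e G (fun o => (z o).comp (C c * X)) r (fun o => c ^ (e * W o) * π o)

/- Row Upgrade -/

def Upgrade : Prop :=
  ∀ (ι : Type) [Fintype ι] (W : Option ι → ℕ) (d e1 e2 j : ℕ), Wg W d → 0 < e1 → 0 < j →
    (∀ i, j < e2 * W (some i)) →
    ∀ (G : MvPolynomial (Option ι) ℂ), IsWeightedHomogeneous W G d →
    ∀ (q y : Option ι → ℂ[X]) (v r π : Option ι → ℂ),
    (∀ o, (q o).natDegree ≤ e1 * W o) → (∀ o, (q o).coeff 0 = v o) →
    (∀ o, (q o).coeff (e1 * W o) = r o) → MvPolynomial.aeval q G = 0 →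
    q none = C (r none) * X ^ (e1 * W none) →
    Onto (fun i => MvPolynomial.aeval q (pderiv (some i) G)) (e1 * d + j - 1)
      (fun i => e1 * W (some i) + j - 1) →
    (∀ o, (y o).natDegree ≤ e2 * W o) → (∀ o, (y o).coeff 0 = v o) →
    (∀ o, (y o).coeff (e2 * W o) = π o) → MvPolynomial.aeval y G = 0 → y none = 0 →
    (∀ o b, 0 < b → b ≤ j → (y o).coeff b = 0) →
    Onto (fun i => MvPolynomial.aeval y (pderiv (some i) G)) (e2 * d - j - 1)
      (fun i => e2 * W (some i) - j - 1) →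
    (∃ h : ι → ℂ, ∑ i, MvPolynomial.eval v (pderiv (some i) G) * h i = 1) →
    ∃ (μ : ℂ) (z : Option ι → ℂ[X]), μ ≠ 0 ∧
      Crv2 W d (e1 + e2) G z (fun o => μ ^ W o * r o) π ∧ z none = C (μ ^ W none * r none)

/- Row Gen -/

/-- all pairs of points of the boundary have very free curves with a common end -/
def Good {ι : Type} [Fintype ι] (W : Option ι → ℕ) (d : ℕ) (G : MvPolynomial (Option ι) ℂ) :
    Prop :=
  ∀ r1 r2 : Option ι → ℂ, r1 ≠ 0 → r2 ≠ 0 → r1 none = 0 → r2 none = 0 →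
    MvPolynomial.eval r1 G = 0 → MvPolynomial.eval r2 G = 0 → PG W d G r1 r2

def SpecPt : Prop :=
  ∀ (K α : Type) [Field K] [Algebra ℂ K] [Fintype α] (O : ValuationSubring K),
    (∀ c : ℂ, algebraMap ℂ K c ∈ O) → ∀ y : α → K, (∀ a, y a ∈ O) →
    ∃ pt : α → ℂ, ∀ f : MvPolynomial α ℂ, MvPolynomial.aeval y f ∈ O.nonunits →
      MvPolynomial.eval pt f = 0

def Gen : Prop :=
  ∀ (ι : Type) [Fintype ι] (W : Option ι → ℕ) (d : ℕ), Wg W d →
    ∀ (G : MvPolynomial (Option ι) ℂ), IsWeightedHomogeneous W G d → Good W d G →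
    ∀ (K : Type) [Field K] [IsAlgClosed K] [Algebra ℂ K] (r : Option ι → K), r none = 1 →
    MvPolynomial.aeval r G = 0 → (∃ i, r (some i) ∉ Set.range (algebraMap ℂ K)) →
    ∃ (e : ℕ) (z : Option ι → K[X]) (π : Option ι → K),
      Crv2 W d e (MvPolynomial.map (algebraMap ℂ K) G) z r π ∧ z none = C 1

/- Row Lim -/

def Lim : Prop :=
  ∀ (ι : Type) [Fintype ι] (G : MvPolynomial (Option ι) ℂ)
    (K : Type) [Field K] [IsAlgClosed K] [Algebra ℂ K] (z : Option ι → K[X]), z none = C 1 →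
    MvPolynomial.aeval z (MvPolynomial.map (algebraMap ℂ K) G) = 0 →
    (∃ i, 0 < (z (some i)).natDegree) → ∀ r0 : ι → ℂ,
    (∀ f : MvPolynomial ι ℂ, MvPolynomial.aeval (fun i => (z (some i)).coeff 0) f = 0 →
      MvPolynomial.eval r0 f = 0) →
    ∃ x : Option ι → ℂ[X], x none = C 1 ∧ (∀ i, (x (some i)).coeff 0 = r0 i) ∧
      MvPolynomial.aeval x G = 0 ∧ ∃ i, 0 < (x (some i)).natDegree

/- Row Tail -/

def Tail : Prop :=
  ∀ (ι : Type) [Fintype ι] (W : Option ι → ℕ) (d : ℕ), Wg W d → 2 ≤ Fintype.card ι →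
    ∀ (G : MvPolynomial (Option ι) ℂ), IsWeightedHomogeneous W G d → Good W d G →
    ∀ r : Option ι → ℂ, r none = 1 → MvPolynomial.eval r G = 0 →
    (∃ i, MvPolynomial.eval r (pderiv (some i) G) ≠ 0) →
    ∃ (e : ℕ) (x : Option ι → ℂ[X]) (v : Option ι → ℂ), 0 < e ∧ v ≠ 0 ∧ v none = 0 ∧
      (∀ o, (x o).natDegree ≤ e * W o) ∧ (∀ o, (x o).coeff 0 = r o) ∧
      (∀ o, (x o).coeff (e * W o) = v o) ∧ MvPolynomial.aeval x G = 0 ∧ x none = C 1

/- Row Bdry -/

def Bdry : Prop :=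
  ∀ (ι : Type) [Fintype ι] (a w : ι → ℕ) (d : ℕ), Wt a w d →
    ∃ Δ : MvPolynomial (ι →₀ ℕ) ℂ,
      MvPolynomial.eval (fun μ => MvPolynomial.coeff μ
        (∑ i, MvPolynomial.X i ^ a i : MvPolynomial ι ℂ)) Δ ≠ 0 ∧
      ∀ (W : Option ι → ℕ), (∀ i, W (some i) = w i) → 0 < W none →
      ∀ G : MvPolynomial (Option ι) ℂ, IsWeightedHomogeneous W G d →
        MvPolynomial.eval (fun μ => MvPolynomial.coeff μ (atD G)) Δ ≠ 0 → Good W d G

/- Row All -/

def All : Prop :=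
  ∀ (ι : Type) [Fintype ι] (W : Option ι → ℕ) (d : ℕ), Wg W d → 2 ≤ Fintype.card ι →
    ∀ (G : MvPolynomial (Option ι) ℂ), IsWeightedHomogeneous W G d → Good W d G →
    (∀ v : Option ι → ℂ, v none ≠ 0 → MvPolynomial.eval v G = 0 →
      ∃ o, MvPolynomial.eval v (pderiv o G) ≠ 0) →
    LogRC W (zs W G) (zsD W G)

end Pool.Agent.MP_776d16_ag.H34T
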