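import Pool.Agent.MP_776d16_ag.H34T.SL

/-! Row Upgrade: twisted smoothing of a curve with a very free curve attached. -/

set_option linter.unusedSectionVars false

namespace Pool.Agent.MP_776d16_ag.H34T

open Polynomial Finset Pool.Agent.MP_776d16_ag.H34 Pool.Agent.MP_776d16_ag.H34G
open Pool.Agent.MP_776d16_ag.H34.GlueA
open MvPolynomial (pderiv IsWeightedHomogeneous)

namespace UpgradeA

variable {ι : Type}

theorem sol_map {R β : Type} [CommRing R] [Fintype ι] {G : β → MvPolynomial ι R[X]} {k : ι → ℕ}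
    {P0 : β → ι → R[X]} {p : β → ∀ i, Fin (k i) → R[X]} {pos : β → ℕ} {B B' : Type}
    [CommRing B] [Algebra R B] [CommRing B'] [Algebra R B'] (φ : B →ₐ[R] B')
    (hφ : Function.Surjective φ) {x : ∀ i, Fin (k i) → B} (h : Sol3 G k P0 p pos B x) :
    Sol3 G k P0 p pos B' fun i l => φ (x i l) := by
  refine ⟨fun b => ?_, fun v => ?_⟩
  · have := SLA3.Fv_map G k P0 p pos φ x b
    rw [show SLA3.Fv G k P0 p pos B x b = 0 from h.1 b, map_zero] at this
    exact this.symm
  · choose v' hv' using fun b => hφ (v b)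
    obtain ⟨u, hu⟩ := h.2 v'
    refine ⟨fun i l => φ (u i l), fun b => ?_⟩
    have := SLA3.Jl_map G k P0 p pos φ x u b
    rw [show SLA3.Jl G k P0 p pos B x b u = v' b from hu b, hv'] at this
    exact this.symm

/-- substitute `t` for the variable of index `none` -/
noncomputable def sub (t : ℂ[X][X]) (G : MvPolynomial (Option ι) ℂ) : MvPolynomial ι ℂ[X][X] :=
  MvPolynomial.aeval (fun o : Option ι => o.elim (MvPolynomial.C t) MvPolynomial.X) G

theorem sub_C (t : ℂ[X][X]) (c : ℂ) :
    sub t (MvPolynomial.C c : MvPolynomial (Option ι) ℂ) = MvPolynomial.C (C (C c)) := by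
  rw [sub, MvPolynomial.aeval_C]; rfl

theorem sub_add (t : ℂ[X][X]) (p q : MvPolynomial (Option ι) ℂ) :
    sub t (p + q) = sub t p + sub t q := map_add _ _ _

theorem sub_mul (t : ℂ[X][X]) (p : MvPolynomial (Option ι) ℂ) (o : Option ι) :
    sub t (p * MvPolynomial.X o) = sub t p * o.elim (MvPolynomial.C t) MvPolynomial.X := by
  rw [sub, map_mul, MvPolynomial.aeval_X]; rfl

theorem ev_sub (l : ℂ) (t : ℂ[X][X]) (z : ι → ℂ[X]) (G : MvPolynomial (Option ι) ℂ) :
    MvPolynomial.eval₂Hom (mapRingHom (evalRingHom l)) z (sub t G) =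
      MvPolynomial.aeval (fun o : Option ι => o.elim (t.map (evalRingHom l)) z) G := by
  induction G using MvPolynomial.induction_on with
  | C c => rw [sub_C]; simp
  | add p q hp hq => rw [sub_add, map_add, map_add, hp, hq]
  | mul_X p o hp =>
    rw [sub_mul, map_mul, map_mul, hp, MvPolynomial.aeval_X]
    rcases o with _ | i <;> simp

theorem pderiv_sub (t : ℂ[X][X]) (i : ι) (G : MvPolynomial (Option ι) ℂ) :
    pderiv i (sub t G) = sub t (pderiv (some i) G) := by
  classical
  induction G using MvPolynomial.induction_on with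
  | C c => rw [sub_C, MvPolynomial.pderiv_C, MvPolynomial.pderiv_C, sub, map_zero]
  | add p q hp hq => rw [sub_add, map_add, map_add, sub_add, hp, hq]
  | mul_X p o hp =>
    rw [sub_mul, MvPolynomial.pderiv_mul, MvPolynomial.pderiv_mul, hp, sub_add, sub_mul]
    congr 1
    rcases o with _ | k
    · simp [sub]
    · by_cases h : k = i
      · subst h; simp
      · have h' : some k ≠ some i := fun e => h (Option.some.inj e)
        simp [MvPolynomial.pderiv_X_of_ne h, MvPolynomial.pderiv_X_of_ne h', sub]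

theorem pderiv_aff {S : Type} [CommRing S] (x0 : ι → S) (η : S) (i : ι) (F : MvPolynomial ι S) :
    pderiv i (MvPolynomial.aeval
      (fun k => MvPolynomial.C (x0 k) + MvPolynomial.C η * MvPolynomial.X k) F :
        MvPolynomial ι S) = MvPolynomial.C η * MvPolynomial.aeval
      (fun k => MvPolynomial.C (x0 k) + MvPolynomial.C η * MvPolynomial.X k) (pderiv i F) := by
  classical
  induction F using MvPolynomial.induction_on with
  | C c => simp
  | add p q hp hq => simp only [map_add, hp, hq, mul_add]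
  | mul_X p k hp =>
    rw [map_mul, MvPolynomial.pderiv_mul, hp, MvPolynomial.pderiv_mul]
    by_cases h : k = i
    · subst h
      simp only [MvPolynomial.aeval_X, map_add, MvPolynomial.pderiv_C, MvPolynomial.pderiv_mul,
        MvPolynomial.pderiv_X_self, map_mul, mul_one, zero_mul, zero_add]
      ring
    · simp only [MvPolynomial.aeval_X, map_add, MvPolynomial.pderiv_C, MvPolynomial.pderiv_mul,
        MvPolynomial.pderiv_X_of_ne h, map_mul, mul_zero, zero_mul, add_zero]
      ring

theorem ev_aff {S S' : Type} [CommRing S] [CommRing S'] (Ψ : S →+* S') (x0 : ι → S) (η : S)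
    (H : ι → S') (F : MvPolynomial ι S) :
    MvPolynomial.eval₂Hom Ψ H (MvPolynomial.aeval
      (fun k => MvPolynomial.C (x0 k) + MvPolynomial.C η * MvPolynomial.X k) F :
        MvPolynomial ι S) = MvPolynomial.eval₂Hom Ψ (fun k => Ψ (x0 k) + Ψ η * H k) F := by
  induction F using MvPolynomial.induction_on with
  | C c => simp
  | add p q hp hq => simp only [map_add, hp, hq]
  | mul_X p k hp => rw [map_mul, map_mul, map_mul, hp]; simp

/-- the equation of the second sheet divided by `ε ^ j` -/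
theorem exGQ [Fintype ι] (hT : Tay2) (G : MvPolynomial (Option ι) ℂ) (x0 : Option ι → ℂ[X])
    (h0 : MvPolynomial.aeval x0 G = 0) {j : ℕ} (hj : 0 < j) :
    ∃ GQ : MvPolynomial ι ℂ[X][X],
      (∀ (l : ℂ) (H : ι → ℂ[X]), C (l ^ j) *
        MvPolynomial.eval H (MvPolynomial.map (mapRingHom (evalRingHom l)) GQ) =
        MvPolynomial.aeval (fun o : Option ι => o.elim (x0 none)
          fun i => x0 (some i) + C (l ^ j) * H i) G) ∧
      (∀ (l : ℂ) (H : ι → ℂ[X]) (i : ι), l ≠ 0 →
        MvPolynomial.eval H (pderiv i (MvPolynomial.map (mapRingHom (evalRingHom l)) GQ)) =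
        MvPolynomial.aeval (fun o : Option ι => o.elim (x0 none)
          fun i => x0 (some i) + C (l ^ j) * H i) (pderiv (some i) G)) ∧
      MvPolynomial.eval 0 (MvPolynomial.map (mapRingHom (evalRingHom 0)) GQ) = 0 ∧
      ∀ (H : ι → ℂ[X]) (i : ι),
        MvPolynomial.eval H (pderiv i (MvPolynomial.map (mapRingHom (evalRingHom 0)) GQ)) =
          MvPolynomial.aeval x0 (pderiv (some i) G) := by
  classical
  obtain ⟨Q, hQ⟩ := hT ℂ[X][X] ι (sub ((x0 none).map C) G) (fun i => (x0 (some i)).map C)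
    (C (X ^ j))
  have back : ∀ (l : ℂ) (f : ℂ[X]), (f.map C).map (evalRingHom l) = f := fun l f => by
    rw [Polynomial.map_map, show (evalRingHom l).comp C = RingHom.id ℂ from
      RingHom.ext fun c => eval_C, Polynomial.map_id]
  have elim : (fun o : Option ι => o.elim (x0 none) fun i => x0 (some i)) = x0 :=
    funext fun o => by cases o <;> rfl
  have evx : ∀ g : MvPolynomial (Option ι) ℂ,
      MvPolynomial.eval (fun i => (x0 (some i)).map C) (sub ((x0 none).map C) g) =
        (MvPolynomial.aeval x0 g).map C := by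
    intro g
    induction g using MvPolynomial.induction_on with
    | C c => rw [sub_C]; simp
    | add p q hp hq => rw [sub_add, map_add, map_add, Polynomial.map_add, hp, hq]
    | mul_X p o hp =>
      rw [sub_mul, map_mul, map_mul, Polynomial.map_mul, hp, MvPolynomial.aeval_X]
      rcases o with _ | i <;> simp
  rw [evx, h0, Polynomial.map_zero, map_zero, zero_add] at hQ
  simp only [pderiv_sub, evx] at hQ
  have hη : ∀ l : ℂ, mapRingHom (evalRingHom l) (C (X ^ j) : ℂ[X][X]) = C (l ^ j) := fun l => by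
    simp
  refine ⟨∑ i, MvPolynomial.C ((MvPolynomial.aeval x0 (pderiv (some i) G)).map C) *
    MvPolynomial.X i + MvPolynomial.C (C (X ^ j) : ℂ[X][X]) * Q, fun l H => ?_, fun l H i hl => ?_, ?_,
    fun H i => ?_⟩
  · have := congrArg (MvPolynomial.eval₂Hom (mapRingHom (evalRingHom l)) H) hQ
    rw [ev_aff, ev_sub, map_mul, MvPolynomial.eval₂Hom_C, hη] at this
    simp only [coe_mapRingHom, back] at this
    rw [this, MvPolynomial.eval_map, MvPolynomial.coe_eval₂Hom]
  · have := congrArg (fun F => MvPolynomial.eval₂Hom (mapRingHom (evalRingHom l)) H (pderiv i F)) hQ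
    simp only [pderiv_aff] at this
    rw [MvPolynomial.pderiv_C_mul, map_mul, map_mul, MvPolynomial.eval₂Hom_C, hη, ev_aff,
      pderiv_sub, ev_sub, hη] at this
    simp only [coe_mapRingHom, back] at this
    rw [mul_left_cancel₀ (C_ne_zero.2 (pow_ne_zero j hl)) this, MvPolynomial.pderiv_map,
      MvPolynomial.eval_map, MvPolynomial.coe_eval₂Hom]
  · simp only [map_add, map_sum, map_mul, MvPolynomial.map_C, MvPolynomial.map_X, hη,
      MvPolynomial.eval_C, MvPolynomial.eval_X, Pi.zero_apply, mul_zero, sum_const_zero,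
      zero_pow hj.ne', C_0, zero_mul, add_zero]
  · simp only [map_add, map_sum, map_mul, MvPolynomial.map_C, MvPolynomial.map_X, hη,
      zero_pow hj.ne', map_zero, zero_mul, add_zero, MvPolynomial.pderiv_C_mul,
      MvPolynomial.eval_C]
    simp only [coe_mapRingHom, back]
    rw [sum_eq_single i, MvPolynomial.pderiv_X_self, map_one, mul_one]
    · intro k _ hk
      rw [MvPolynomial.pderiv_X_of_ne hk, map_zero, mul_zero]
    · simp

theorem tangent [Fintype ι] {L : ι → ℂ[X]} {N : ℕ} {n : ι → ℕ} (hn : ∀ i, 0 < n i)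
    (hO : Onto L (N - 1) fun i => n i - 1) (hL : ∀ i, (L i).natDegree < N) {h : ι → ℂ}
    (hh : ∑ i, (L i).coeff 0 * h i = 1) (S : ℂ[X]) (hS : ∀ j, N ≤ j → S.coeff j = 0) :
    ∃ hp : ι → ℂ[X], (∀ i j, n i ≤ j → (hp i).coeff j = 0) ∧
      (∀ i, (hp i).coeff 0 = S.coeff 0 * h i) ∧ ∑ i, L i * hp i = S := by
  set F : ℂ[X] := S - ∑ i, L i * C (S.coeff 0 * h i) with hF
  have F0 : F.coeff 0 = 0 := by
    have : ∀ i, (L i * C (S.coeff 0 * h i)).coeff 0 = S.coeff 0 * ((L i).coeff 0 * h i) :=
      fun i => by rw [coeff_mul_C]; ring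
    rw [hF, coeff_sub, finsetSum_coeff]
    simp only [this]
    rw [← mul_sum, hh, mul_one, sub_self]
  have F1 : ∀ j, N ≤ j → F.coeff j = 0 := by
    intro j hj
    rw [hF, coeff_sub, hS j hj, finsetSum_coeff, sum_eq_zero, sub_zero]
    intro i _
    rw [coeff_mul_C, coeff_eq_zero_of_natDegree_lt ((hL i).trans_le hj), zero_mul]
  obtain ⟨h', d', e'⟩ := hO F.divX (by
    rw [degree_lt_iff_coeff_zero]
    intro j hj
    rw [coeff_divX]
    exact F1 _ (by omega))
  refine ⟨fun i => C (S.coeff 0 * h i) + X * h' i, fun i j hj => ?_, fun i => by simp, ?_⟩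
  · have := hn i
    obtain ⟨j, rfl⟩ : ∃ k, j = k + 1 := ⟨j - 1, by omega⟩
    rw [coeff_add, coeff_C_succ, coeff_X_mul, zero_add]
    exact (degree_lt_iff_coeff_zero _ _).1 (d' i) j (by dsimp only; omega)
  · have e2 : X * F.divX = F := by
      have := X_mul_divX_add F
      rwa [F0, C_0, add_zero] at this
    have e3 : S = F + ∑ i, L i * C (S.coeff 0 * h i) := by rw [hF]; ring
    refine Eq.trans ?_ e3.symm
    rw [← e2, e', mul_sum, ← sum_add_distrib]
    exact sum_congr rfl fun i _ => by ring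

theorem QQ_split {n n' j : ℕ} (hj : j ≤ n') (l : ℂ) {y q : ℂ[X]} (hq : q.natDegree ≤ n)
    (hy : ∀ b, 0 < b → b ≤ j → y.coeff b = 0) :
    QQ n n' l (sp n y q) = X ^ n' * q + C (l ^ j) * QQ (n + j) (n' - j) l (sp n y 0) := by
  ext a
  rw [coeff_add, coeff_C_mul, QQ_coeff, QQ_coeff, coeff_X_pow_mul',
    show n + j + (n' - j) = n + n' by omega]
  by_cases h1 : a ≤ n + n'
  · rw [if_pos h1, if_pos h1, sp, sp]
    by_cases h2 : n' ≤ a
    · rw [if_pos h2, if_pos (by omega), if_pos (by omega), show n' - a = 0 by omega,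
        show n - (n + n' - a) = a - n' by omega]
      simp
    · rw [if_neg h2, if_neg (by omega), if_neg (by omega), zero_add]
      by_cases h3 : n' - a ≤ j
      · rw [hy _ (by omega) (by omega)]; simp
      · rw [← mul_assoc, ← pow_add]
        congr 2; omega
  · rw [if_neg h1, if_neg h1, if_pos (by omega), coeff_eq_zero_of_natDegree_lt (by omega)]
    simp

theorem QQ_base {n n' j : ℕ} {y : ℂ[X]} (hy : ∀ b, 0 < b → b ≤ j → y.coeff b = 0) :
    QQ (n + j) n' 0 (sp n y 0) = 0 := by
  ext a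
  rw [QQ_coeff, coeff_zero]
  split_ifs with h1
  · rcases Nat.lt_or_ge a n' with h | h
    · rw [zero_pow (by omega), zero_mul]
    · rw [sp]
      split_ifs with h2
      · simp
      · rw [hy _ (by omega) (by omega), mul_zero]
  · rfl

theorem ext_null {m : ℕ} (a : ℕ) : GlueA.ext (0 : ℂ) 0 (0 : Fin m → ℂ) a = 0 := by
  simp [GlueA.ext]

theorem PP_null (n n' : ℕ) (l : ℂ) {c : ℕ → ℂ} (hc : ∀ a, c a = 0) : PP n n' l c = 0 := by
  simp [PP, hc]

theorem QQ_null (n n' : ℕ) (l : ℂ) {c : ℕ → ℂ} (hc : ∀ a, c a = 0) : QQ n n' l c = 0 := by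
  simp [QQ, hc]

theorem fam_split {R : Type} [CommRing R] {m : ℕ} (P0 : R[X]) (p : Fin m → R[X]) (B : Type)
    [CommRing B] [Algebra R B] (x : Fin m → B) :
    fam P0 p B x = P0.map (algebraMap R B) + fam 0 p B x := by
  simp [fam]

/-- coordinates on the first sheet -/
noncomputable def zP (W : Option ι → ℕ) (e1 e2 j : ℕ) (q y : Option ι → ℂ[X]) (ρ l : ℂ)
    (c : ι → ℕ → ℂ) : Option ι → ℂ[X] := fun o => o.elim (C (l ^ (e1 * W none) * ρ)) fun i =>
  PP (e1 * W (some i)) (e2 * W (some i)) l (sp (e1 * W (some i)) (y (some i)) (q (some i))) +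
    PP (e1 * W (some i) + j) (e2 * W (some i) - j) l (c i)

/-- unknowns on the second sheet -/
noncomputable def HQ (W : Option ι → ℕ) (e1 e2 j : ℕ) (y : Option ι → ℂ[X]) (l : ℂ)
    (c : ι → ℕ → ℂ) (i : ι) : ℂ[X] :=
  QQ (e1 * W (some i) + j) (e2 * W (some i) - j) l (sp (e1 * W (some i)) (y (some i)) 0) +
    QQ (e1 * W (some i) + j) (e2 * W (some i) - j) l (c i)

/-- the system at the parameter `l` -/
def Sys [Fintype ι] (W : Option ι → ℕ) (d e1 e2 j : ℕ) (G : MvPolynomial (Option ι) ℂ)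
    (GQ : MvPolynomial ι ℂ[X][X]) (q y : Option ι → ℂ[X]) (ρ l : ℂ) {m : ι → ℕ}
    (x : ∀ i, Fin (m i) → ℂ) : Prop :=
  (∀ b : Fin (e1 * d + e2 * d - 1),
    (e1 * d + j ≤ b + 1 → (MvPolynomial.aeval
      (zP W e1 e2 j q y ρ l fun i => GlueA.ext 0 0 (x i)) G).coeff (b + 1) = 0) ∧
    (¬ e1 * d + j ≤ b + 1 → (MvPolynomial.eval (HQ W e1 e2 j y l fun i => GlueA.ext 0 0 (x i))
      (MvPolynomial.map (mapRingHom (evalRingHom l)) GQ)).coeff
        (e1 * d + e2 * d - (b + 1)) = 0)) ∧
  ∀ u : Fin (e1 * d + e2 * d - 1) → ℂ, ∃ h : ∀ i, Fin (m i) → ℂ,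
    ∀ b : Fin (e1 * d + e2 * d - 1),
    (e1 * d + j ≤ b + 1 → (∑ i, MvPolynomial.aeval
      (zP W e1 e2 j q y ρ l fun i => GlueA.ext 0 0 (x i)) (pderiv (some i) G) *
      PP (e1 * W (some i) + j) (e2 * W (some i) - j) l (GlueA.ext 0 0 (h i))).coeff (b + 1) = u b) ∧
    (¬ e1 * d + j ≤ b + 1 → (∑ i, MvPolynomial.eval
      (HQ W e1 e2 j y l fun i => GlueA.ext 0 0 (x i))
      (pderiv i (MvPolynomial.map (mapRingHom (evalRingHom l)) GQ)) *
      QQ (e1 * W (some i) + j) (e2 * W (some i) - j) l (GlueA.ext 0 0 (h i))).coeff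
        (e1 * d + e2 * d - (b + 1)) = u b)

theorem deform [Fintype ι] (hSL : SL3) (W : Option ι → ℕ) (d e1 e2 j : ℕ)
    (G : MvPolynomial (Option ι) ℂ) (GQ : MvPolynomial ι ℂ[X][X]) (q y : Option ι → ℂ[X]) (ρ : ℂ)
    {m : ι → ℕ} (hm : ∀ i, m i + 1 = e1 * W (some i) + j + (e2 * W (some i) - j))
    (h0 : Sys W d e1 e2 j G GQ q y ρ 0 (m := m) 0) :
    ∃ (l : ℂ) (x : ∀ i, Fin (m i) → ℂ), l ≠ 0 ∧ Sys W d e1 e2 j G GQ q y ρ l x := by
  let GG : Fin (e1 * d + e2 * d - 1) → MvPolynomial ι ℂ[X][X] := fun b =>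
    if e1 * d + j ≤ b + 1 then sub (C (X ^ (e1 * W none) * C ρ)) G else GQ
  let P0 : Fin (e1 * d + e2 * d - 1) → ι → ℂ[X][X] := fun b =>
    if e1 * d + j ≤ b + 1 then fun i => PP (e1 * W (some i)) (e2 * W (some i)) X
      fun a => C (sp (e1 * W (some i)) (y (some i)) (q (some i)) a)
    else fun i => QQ (e1 * W (some i) + j) (e2 * W (some i) - j) X
      fun a => C (sp (e1 * W (some i)) (y (some i)) 0 a)
  let pp : Fin (e1 * d + e2 * d - 1) → ∀ i, Fin (m i) → ℂ[X][X] := fun b =>
    if e1 * d + j ≤ b + 1 then fun i (l : Fin (m i)) =>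
      monomial (l + 1) (X ^ (e1 * W (some i) + j - (l + 1)))
    else fun i (l : Fin (m i)) => monomial (e1 * W (some i) + j + (e2 * W (some i) - j) - (l + 1))
      (X ^ (l + 1 - (e1 * W (some i) + j)))
  let pos : Fin (e1 * d + e2 * d - 1) → ℕ := fun b =>
    if e1 * d + j ≤ b + 1 then b + 1 else e1 * d + e2 * d - (b + 1)
  have key : ∀ (l : ℂ) (x : ∀ i, Fin (m i) → ℂ),
      @Sol3 ℂ[X] ι _ _ _ GG m P0 pp pos ℂ _ (evalRingHom l).toAlgebra x ↔
        Sys W d e1 e2 j G GQ q y ρ l x := by
    intro l x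
    let _ : Algebra ℂ[X] ℂ := (evalRingHom l).toAlgebra
    have alg : algebraMap ℂ[X] ℂ = evalRingHom l := rfl
    have aX : algebraMap ℂ[X] ℂ X = l := by rw [alg]; simp
    have aC : ∀ z : ℂ, algebraMap ℂ[X] ℂ (C z) = z := fun z => by rw [alg]; simp
    have eP : ∀ (b : Fin (e1 * d + e2 * d - 1)), e1 * d + j ≤ b + 1 → ∀ g,
        MvPolynomial.eval (fun i => fam (P0 b i) (pp b i) ℂ (x i))
          (MvPolynomial.map (mapRingHom (algebraMap ℂ[X] ℂ)) (sub (C (X ^ (e1 * W none) * C ρ)) g)) =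
        MvPolynomial.aeval (zP W e1 e2 j q y ρ l fun i => GlueA.ext 0 0 (x i)) g := by
      intro b hb g
      rw [MvPolynomial.eval_map, ← MvPolynomial.coe_eval₂Hom, alg, ev_sub]
      congr 2
      funext o
      rcases o with _ | i
      · simp only [zP, Option.elim_none]
        rw [map_C, coe_evalRingHom, eval_mul, eval_pow, eval_X, eval_C]
      · simp only [P0, pp, if_pos hb, Option.elim_some, zP]
        rw [fam_split, famP0 ℂ _ (hm i), PP_map]
        simp only [aX, aC]
    have eQ : ∀ (b : Fin (e1 * d + e2 * d - 1)), ¬ e1 * d + j ≤ b + 1 →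
        (fun i => fam (P0 b i) (pp b i) ℂ (x i)) =
          HQ W e1 e2 j y l fun i => GlueA.ext 0 0 (x i) := by
      intro b hb
      funext i
      simp only [P0, pp, if_neg hb, HQ]
      rw [fam_split, famQ0 ℂ _ (hm i), QQ_map]
      simp only [aX, aC]
    refine and_congr (forall_congr' fun b => ?_) (forall_congr' fun u => exists_congr fun h =>
      forall_congr' fun b => ?_)
    · by_cases hb : e1 * d + j ≤ b + 1
      · simp only [GG, pos, if_pos hb, hb, not_true_eq_false, false_imp_iff, and_true,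
          true_imp_iff]
        rw [eP b hb]
      · simp only [GG, pos, hb, not_false_eq_true, false_imp_iff, true_and, true_imp_iff,
          if_false]
        rw [eQ b hb, alg]
    · by_cases hb : e1 * d + j ≤ b + 1
      · simp only [GG, pos, hb, not_true_eq_false, false_imp_iff, and_true, true_imp_iff, if_true,
          MvPolynomial.pderiv_map, pderiv_sub, eP b hb]
        simp only [pp, if_pos hb, famP0 ℂ _ (hm _), aX]
      · simp only [GG, pos, hb, not_false_eq_true, false_imp_iff, true_and, true_imp_iff,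
          if_false]
        rw [eQ b hb]
        simp only [pp, if_neg hb, famQ0 ℂ _ (hm _), aX]
        rw [alg]
  obtain ⟨A, _, _, hfl, hfp, x, φ, -, hsol⟩ := @hSL ℂ[X] ι _ _ _ _ GG m P0 pp pos ℂ _
    (evalRingHom 0).toAlgebra 0 ((key 0 0).2 h0)
  obtain ⟨l, ψ, hl, -, hψ⟩ := ptD A hfl inferInstance 1
    (@AlgHom.toRingHom _ _ _ _ _ _ _ (evalRingHom 0).toAlgebra φ) (by simp)
  let _ : Algebra ℂ[X] ℂ := (evalRingHom l).toAlgebra
  exact ⟨l, _, hl, (key l _).1 (sol_map (⟨ψ, hψ⟩ : A →ₐ[ℂ[X]] ℂ)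
    (fun z => ⟨algebraMap ℂ[X] A (C z), (hψ _).trans eval_C⟩) hsol)⟩

theorem special [Fintype ι] {W : Option ι → ℕ} {d e1 e2 j : ℕ} (hW : Wg W d) (he1 : 0 < e1)
    (hj : 0 < j) (hjn : ∀ i, j < e2 * W (some i)) (hjN : j < e2 * d)
    {G : MvPolynomial (Option ι) ℂ} (hG : IsWeightedHomogeneous W G d)
    {q y : Option ι → ℂ[X]} {v : Option ι → ℂ} (ρ : ℂ)
    (dq : ∀ o, (q o).natDegree ≤ e1 * W o) (q0 : ∀ o, (q o).coeff 0 = v o)
    (Oq : Onto (fun i => MvPolynomial.aeval q (pderiv (some i) G)) (e1 * d + j - 1)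
      (fun i => e1 * W (some i) + j - 1))
    (dy : ∀ o, (y o).natDegree ≤ e2 * W o) (y0 : ∀ o, (y o).coeff 0 = v o)
    (Ey : MvPolynomial.aeval y G = 0) (yn : y none = 0)
    (yj : ∀ o b, 0 < b → b ≤ j → (y o).coeff b = 0)
    (Oy : Onto (fun i => MvPolynomial.aeval y (pderiv (some i) G)) (e2 * d - j - 1)
      (fun i => e2 * W (some i) - j - 1))
    {h : ι → ℂ} (hh : ∑ i, MvPolynomial.eval v (pderiv (some i) G) * h i = 1)
    {GQ : MvPolynomial ι ℂ[X][X]}
    (G0 : MvPolynomial.eval 0 (MvPolynomial.map (mapRingHom (evalRingHom 0)) GQ) = 0)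
    (G1 : ∀ (H : ι → ℂ[X]) (i : ι),
      MvPolynomial.eval H (pderiv i (MvPolynomial.map (mapRingHom (evalRingHom 0)) GQ)) =
        MvPolynomial.aeval (fun o => (X ^ e2) ^ W o * q o) (pderiv (some i) G))
    {m : ι → ℕ} (hm : ∀ i, m i + 1 = e1 * W (some i) + j + (e2 * W (some i) - j)) :
    Sys W d e1 e2 j G GQ q y ρ 0 (m := m) 0 := by
  have aw : ∀ e i, e * (d - W (some i)) + e * W (some i) = e * d := fun e i => by
    rw [← mul_add, Nat.sub_add_cancel (hW.lt i).le]
  have hp' := fun i => homog_pderiv hG (some i) (hW.lt i).le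
  have spP : zP W e1 e2 j q y ρ 0 (fun i => GlueA.ext 0 0 ((0 : ∀ i, Fin (m i) → ℂ) i)) =
      fun o => (X ^ e1) ^ W o * y o := by
    funext o
    rw [← pow_mul]
    rcases o with _ | i
    · simp [zP, yn, he1.ne', (hW.pos none).ne']
    · simp only [zP, Option.elim_some, Pi.zero_apply]
      rw [PP_zero (by rw [q0, y0]) (dy _) fun _ _ => rfl, PP_null _ _ _ ext_null, add_zero]
  have spQ : HQ W e1 e2 j y 0 (fun i => GlueA.ext 0 0 ((0 : ∀ i, Fin (m i) → ℂ) i)) = 0 := by
    funext i
    rw [HQ, QQ_base (yj _), Pi.zero_apply, Pi.zero_apply, QQ_null _ _ _ ext_null, add_zero]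
  constructor
  · intro b
    rw [spP, spQ, aeval_scale hG, Ey, G0, mul_zero]
    exact ⟨fun _ => rfl, fun _ => rfl⟩
  · intro u
    let u' : ℕ → ℂ := fun J => if hJ : J - 1 < e1 * d + e2 * d - 1 then u ⟨J - 1, hJ⟩ else 0
    have hu' : ∀ b : Fin (e1 * d + e2 * d - 1), u' (b + 1) = u b := fun b => by simp [u']
    obtain ⟨hp, dp, cp, ep⟩ := tangent (N := e2 * d - j) (n := fun i => e2 * W (some i) - j)
      (fun i => by have := hjn i; omega) Oy (fun i => by
        have h1 := natDegree_aeval_le (hp' i) dy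
        have := aw e2 i
        have := hjn i
        omega) (h := h) (by simpa only [coeff_zero_aeval, funext y0] using hh)
      (∑ a ∈ range (e2 * d - j), monomial a (u' (e1 * d + j + a))) (fun a ha => by
        simp only [finsetSum_coeff, coeff_monomial, sum_ite_eq', mem_range]
        exact if_neg (by omega))
    obtain ⟨hq, dq', cq, eq⟩ := tangent (N := e1 * d + j) (n := fun i => e1 * W (some i) + j)
      (fun i => by omega) Oq (fun i => by
        have h1 := natDegree_aeval_le (hp' i) dq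
        have := aw e1 i
        omega) (h := h) (by simpa only [coeff_zero_aeval, funext q0] using hh)
      (∑ a ∈ range (e1 * d + j), monomial a (u' (e1 * d + j - a))) (fun a ha => by
        simp only [finsetSum_coeff, coeff_monomial, sum_ite_eq', mem_range]
        exact if_neg (by omega))
    have c0 : ∀ i, (hp i).coeff 0 = (hq i).coeff 0 := fun i => by
      rw [cp, cq]
      simp [coeff_monomial, hj, hjN]
    have hs : ∀ i, ∀ a ≤ e1 * W (some i) + j + (e2 * W (some i) - j), GlueA.ext 0 0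
        (fun l : Fin (m i) => sp (e1 * W (some i) + j) (hp i) (hq i) (l + 1)) a
          = sp (e1 * W (some i) + j) (hp i) (hq i) a := fun i a ha => by
      have s0 : sp (e1 * W (some i) + j) (hp i) (hq i) 0 = 0 := by simp [sp, dq']
      have s1 : sp (e1 * W (some i) + j) (hp i) (hq i) (m i + 1) = 0 := by
        have := hjn i
        rw [sp, hm i, if_neg (by omega), Nat.add_sub_cancel_left, dp i _ le_rfl]
      have := ext_eq (m := m i) (sp (e1 * W (some i) + j) (hp i) (hq i)) (j := a)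
        (by rw [hm i]; exact ha)
      rwa [s0, s1] at this
    have dp1 : ∀ i, (hp i).natDegree ≤ e2 * W (some i) - j := fun i =>
      natDegree_le_iff_coeff_eq_zero.2 fun a ha => dp i a ha.le
    have dq1 : ∀ i, (hq i).natDegree ≤ e1 * W (some i) + j := fun i =>
      natDegree_le_iff_coeff_eq_zero.2 fun a ha => dq' i a ha.le
    refine ⟨fun i l => sp (e1 * W (some i) + j) (hp i) (hq i) (l + 1), fun b => ?_⟩
    have hb2 := b.2
    refine ⟨fun hb => ?_, fun hb => ?_⟩
    · simp only [PP_zero (c0 _) (dp1 _) (hs _)]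
      rw [spP]
      have : ∀ i, MvPolynomial.aeval (fun o => (X ^ e1) ^ W o * y o) (pderiv (some i) G) *
          (X ^ (e1 * W (some i) + j) * hp i) = X ^ (e1 * d + j) *
            (MvPolynomial.aeval y (pderiv (some i) G) * hp i) := fun i => by
        rw [aeval_scale (hp' i), ← aw e1 i, pow_add, pow_add, pow_add, pow_mul]
        ring
      simp only [this]
      rw [← mul_sum, ep, coeff_X_pow_mul', if_pos hb]
      simp only [finsetSum_coeff, coeff_monomial, sum_ite_eq', mem_range]
      rw [if_pos (by omega), ← hu']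
      congr 1; omega
    · simp only [QQ_zero (dq1 _) (hs _), G1]
      have : ∀ i, MvPolynomial.aeval (fun o => (X ^ e2) ^ W o * q o) (pderiv (some i) G) *
          (X ^ (e2 * W (some i) - j) * hq i) = X ^ (e2 * d - j) *
            (MvPolynomial.aeval q (pderiv (some i) G) * hq i) := fun i => by
        have h1 : e2 * d - j = e2 * (d - W (some i)) + (e2 * W (some i) - j) := by
          have := aw e2 i
          have := hjn i
          omega
        rw [aeval_scale (hp' i), h1, pow_add, pow_mul]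
        ring
      simp only [this]
      rw [← mul_sum, eq, coeff_X_pow_mul', if_pos (by omega)]
      simp only [finsetSum_coeff, coeff_monomial, sum_ite_eq', mem_range]
      rw [if_pos (by omega), ← hu']
      congr 1; omega

/-- coordinates on the second sheet -/
noncomputable def zQ (W : Option ι → ℕ) (e1 e2 j : ℕ) (q y : Option ι → ℂ[X]) (l : ℂ)
    (c : ι → ℕ → ℂ) : Option ι → ℂ[X] := fun o => o.elim ((X ^ e2) ^ W none * q none) fun i =>
  (X ^ e2) ^ W (some i) * q (some i) + C (l ^ j) * HQ W e1 e2 j y l c i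

theorem flip_z {W : Option ι → ℕ} {e1 e2 j D : ℕ} (hjn : ∀ i, j < e2 * W (some i))
    {g : MvPolynomial (Option ι) ℂ} (hg : IsWeightedHomogeneous W g D) {q y : Option ι → ℂ[X]}
    {ρ : ℂ} (dq : ∀ o, (q o).natDegree ≤ e1 * W o) (qn : q none = C ρ * X ^ (e1 * W none))
    (yj : ∀ o b, 0 < b → b ≤ j → (y o).coeff b = 0) (l : ℂ) (c : ι → ℕ → ℂ) {t : ℂ}
    (ht : t ≠ 0) :
    t ^ ((e1 + e2) * D) * (MvPolynomial.aeval (zP W e1 e2 j q y ρ l c) g).eval (l / t) =
      l ^ (e1 * D) * (MvPolynomial.aeval (zQ W e1 e2 j q y l c) g).eval t := by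
  rw [eval_aeval_poly, eval_aeval_poly, pow_mul, pow_mul, ← eval_scale hg, ← eval_scale hg]
  congr 2
  funext o
  rw [← pow_mul, ← pow_mul, add_mul]
  rcases o with _ | i
  · simp only [zP, zQ, Option.elim_none, qn, eval_mul, eval_C, eval_pow, eval_X, ← pow_mul]
    ring
  · have h1 := PQ_eval (e1 * W (some i)) (e2 * W (some i)) l
      (sp (e1 * W (some i)) (y (some i)) (q (some i))) ht
    have h2 := PQ_eval (e1 * W (some i) + j) (e2 * W (some i) - j) l (c i) ht
    rw [show e1 * W (some i) + j + (e2 * W (some i) - j) = e1 * W (some i) + e2 * W (some i) by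
      have := hjn i; omega] at h2
    rw [QQ_split (hjn i).le l (dq _) (yj _)] at h1
    simp only [zP, zQ, HQ, Option.elim_some, ← pow_mul]
    rw [eval_add, mul_add, h1, h2]
    simp only [eval_add, eval_mul, eval_C]
    ring

end UpgradeA

open UpgradeA in
theorem upgrade : SL3 → Tay2 → Upgrade := by
  intro hSL hT ι _ W d e1 e2 j hW he1 hj hjn G hG q y v r π dq q0 qr Eq qn Oq dy y0 yπ Ey yn yj Oy
    ⟨h, hh⟩
  have hne : Nonempty ι := by
    by_contra hc
    rw [not_nonempty_iff] at hc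
    simp at hh
  obtain ⟨i0⟩ := hne
  have he2 : 0 < e2 := Nat.pos_of_ne_zero (by rintro rfl; simpa using hjn i0)
  have hjN : j < e2 * d := (hjn i0).trans_le (Nat.mul_le_mul_left _ (hW.lt i0).le)
  have hn1 : ∀ o, 0 < e1 * W o := fun o => Nat.mul_pos he1 (hW.pos o)
  have hN1 : 0 < e1 * d := Nat.mul_pos he1 (by have := hW.two; omega)
  have aw : ∀ e i, e * (d - W (some i)) + e * W (some i) = e * d := fun e i => by
    rw [← mul_add, Nat.sub_add_cancel (hW.lt i).le]
  have hp' := fun i => homog_pderiv hG (some i) (hW.lt i).le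
  have nn : ∀ i, e1 * W (some i) + j + (e2 * W (some i) - j) =
      e1 * W (some i) + e2 * W (some i) := fun i => by have := hjn i; omega
  obtain ⟨m, hm⟩ : ∃ m : ι → ℕ, ∀ i, m i + 1 = e1 * W (some i) + j + (e2 * W (some i) - j) :=
    ⟨fun i => e1 * W (some i) + j + (e2 * W (some i) - j) - 1, fun i => by dsimp only; omega⟩
  obtain ⟨GQ, Ga, Gb, G0, G1⟩ := exGQ hT G (fun o => (X ^ e2) ^ W o * q o)
    (by rw [aeval_scale hG, Eq, mul_zero]) hj
  obtain ⟨l, x, hl, hs1, hs2⟩ := deform hSL W d e1 e2 j G GQ q y (r none) hm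
    (special hW he1 hj hjn hjN hG (r none) dq q0 Oq dy y0 Ey yn yj Oy hh G0 G1 hm)
  set c : ι → ℕ → ℂ := fun i => GlueA.ext 0 0 (x i) with hc
  have Ga' : C (l ^ j) * MvPolynomial.eval (HQ W e1 e2 j y l c)
      (MvPolynomial.map (mapRingHom (evalRingHom l)) GQ) =
      MvPolynomial.aeval (zQ W e1 e2 j q y l c) G := Ga l _
  have Gb' : ∀ i, MvPolynomial.eval (HQ W e1 e2 j y l c)
      (pderiv i (MvPolynomial.map (mapRingHom (evalRingHom l)) GQ)) =
      MvPolynomial.aeval (zQ W e1 e2 j q y l c) (pderiv (some i) G) := fun i => Gb l _ i hl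
  set z := zP W e1 e2 j q y (r none) l c with hz
  have dz : ∀ o, (z o).natDegree ≤ (e1 + e2) * W o := by
    rintro (_ | i)
    · exact (natDegree_C _).trans_le (Nat.zero_le _)
    · rw [add_mul]
      exact natDegree_add_le_of_degree_le (PP_deg _ _ _ _) ((PP_deg _ _ _ _).trans (nn i).le)
  have z0 : ∀ o, (z o).coeff 0 = (l ^ e1) ^ W o * r o := by
    rintro (_ | i)
    · rw [← pow_mul]; exact coeff_C_zero
    · simp only [hz, zP, Option.elim_some, coeff_add, PP_coeff, Nat.zero_le, if_true, hc, ext_zero,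
        sp, Nat.sub_zero, qr, mul_zero, add_zero, pow_mul]
  have z1 : ∀ o, (z o).coeff ((e1 + e2) * W o) = π o := by
    rintro (_ | i)
    · rw [← yπ, yn, coeff_zero]
      exact coeff_C_of_ne_zero (by have := hn1 none; rw [add_mul]; omega)
    · have := hjn i
      have h1 : c i (e1 * W (some i) + e2 * W (some i)) = 0 := by
        rw [← nn i, ← hm i]; exact ext_top _ _ _
      simp only [hz, zP, Option.elim_some, coeff_add, add_mul]
      rw [PP_coeff, PP_coeff, if_pos le_rfl, if_pos (nn i).ge, h1, sp, if_neg (by omega),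
        Nat.add_sub_cancel_left, yπ, show e1 * W (some i) - (e1 * W (some i) + e2 * W (some i)) = 0
          by omega]
      simp
  have Er : MvPolynomial.eval r G = 0 := by
    rw [← funext qr, ← coeff_top_aeval hG dq, Eq, coeff_zero]
  have Eπ : MvPolynomial.eval π G = 0 := by
    rw [← funext yπ, ← coeff_top_aeval hG dy, Ey, coeff_zero]
  refine ⟨l ^ e1, z, pow_ne_zero _ hl, ⟨by omega, dz, z0, z1, ?_, ?_⟩, by rw [← pow_mul]; rfl⟩
  · have dP := natDegree_aeval_le hG dz
    ext J
    rw [coeff_zero]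
    rcases Nat.lt_or_ge ((e1 + e2) * d) J with h1 | h1
    · exact coeff_eq_zero_of_natDegree_lt (by omega)
    rcases h1.eq_or_lt with rfl | h1
    · rw [coeff_top_aeval hG dz, funext z1, Eπ]
    rcases J with _ | J
    · rw [coeff_zero_aeval, funext z0, eval_scale hG, Er, mul_zero]
    have hJ : J < e1 * d + e2 * d - 1 := by rw [add_mul] at h1; omega
    by_cases hb : e1 * d + j ≤ J + 1
    · exact (hs1 ⟨J, hJ⟩).1 hb
    · have h2 := coeff_flip dP (fun t ht => flip_z hjn hG dq qn yj l c ht) h1.le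
      rw [← Ga', coeff_C_mul, add_mul, (hs1 ⟨J, hJ⟩).2 hb, mul_zero, mul_zero] at h2
      exact (mul_eq_zero.1 h2).resolve_left (pow_ne_zero _ hl)
  · intro f hf
    rw [degree_lt_iff_coeff_zero] at hf
    obtain ⟨k, hk⟩ := hs2 fun b => if e1 * d + j ≤ b + 1 then f.coeff b
      else l ^ (b + 1 : ℕ) / l ^ (e1 * d + j) * f.coeff b
    set HP : ι → ℂ[X] := fun i =>
      PP (e1 * W (some i) + j) (e2 * W (some i) - j) l (GlueA.ext 0 0 (k i)) with hHP
    have HX : ∀ i, X * (HP i).divX = HP i := fun i => by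
      have := X_mul_divX_add (HP i)
      rwa [show (HP i).coeff 0 = 0 by simp [hHP, PP_coeff, ext_zero], C_0, add_zero] at this
    have dH : ∀ i, ((HP i).divX).degree < (((e1 + e2) * W (some i) - 1 : ℕ) : WithBot ℕ) := by
      intro i
      rw [degree_lt_iff_coeff_zero]
      intro a ha
      rw [add_mul, ← nn i, ← hm i] at ha
      rw [coeff_divX, hHP]
      simp only [PP_coeff]
      split_ifs with h1
      · rw [show a + 1 = m i + 1 by have := hm i; omega, ext_top, mul_zero]
      · rfl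
    have dL : ∀ i, (MvPolynomial.aeval z (pderiv (some i) G)).natDegree ≤
        (e1 + e2) * (d - W (some i)) := fun i => natDegree_aeval_le (hp' i) dz
    have dA : (∑ i, MvPolynomial.aeval z (pderiv (some i) G) * HP i).natDegree ≤ (e1 + e2) * d :=
      natDegree_sum_le_of_forall_le _ _ fun i _ => natDegree_mul_le.trans (by
        have h1 := dL i
        have h2 : (HP i).natDegree ≤ _ := PP_deg _ _ _ _
        have h3 := aw (e1 + e2) i
        rw [nn i, ← add_mul] at h2
        omega)
    refine ⟨fun i => (HP i).divX, dH, ?_⟩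
    ext J
    rcases Nat.lt_or_ge J ((e1 + e2) * d - 1) with h1 | h1
    · have hJ : J < e1 * d + e2 * d - 1 := by rwa [add_mul] at h1
      have e0 : (∑ i, MvPolynomial.aeval z (pderiv (some i) G) * (HP i).divX).coeff J =
          (∑ i, MvPolynomial.aeval z (pderiv (some i) G) * HP i).coeff (J + 1) := by
        rw [← coeff_X_mul, mul_sum]
        congr 1
        exact sum_congr rfl fun i _ => by rw [mul_left_comm, HX]
      rw [e0]
      by_cases hb : e1 * d + j ≤ J + 1
      · have := (hk ⟨J, hJ⟩).1 hb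
        simp only [if_pos hb] at this
        exact this.symm
      · have h3 := (hk ⟨J, hJ⟩).2 hb
        simp only [if_neg hb, Gb'] at h3
        have h2 := coeff_flip (c := l ^ (e1 * d + j))
          (G := ∑ i, MvPolynomial.aeval (zQ W e1 e2 j q y l c) (pderiv (some i) G) *
            QQ (e1 * W (some i) + j) (e2 * W (some i) - j) l (GlueA.ext 0 0 (k i)))
          (ε := l) dA (fun t ht => by
            simp only [eval_finsetSum, eval_mul, mul_sum]
            refine sum_congr rfl fun i _ => ?_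
            have f1 := flip_z hjn (hp' i) dq qn yj l c ht
            have f2 := PQ_eval (e1 * W (some i) + j) (e2 * W (some i) - j) l
              (GlueA.ext 0 0 (k i)) ht
            rw [nn i, ← add_mul] at f2
            rw [← aw (e1 + e2) i, ← aw e1 i, add_assoc, pow_add, pow_add l (e1 * _),
              mul_mul_mul_comm, mul_mul_mul_comm (l ^ _), f1, f2]) (J := J + 1) (by omega)
        rw [add_mul, h3, ← mul_assoc, mul_div_cancel₀ _ (pow_ne_zero _ hl)] at h2
        exact (mul_left_cancel₀ (pow_ne_zero _ hl) h2).symm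
    · rw [hf J h1, finsetSum_coeff]
      refine (sum_eq_zero fun i _ => ?_).symm
      rw [coeff_mul]
      refine sum_eq_zero fun s hs => ?_
      have h2 : s.1 + s.2 = J := by simpa using hs
      rcases Nat.lt_or_ge ((e1 + e2) * (d - W (some i))) s.1 with h3 | h3
      · rw [coeff_eq_zero_of_natDegree_lt ((dL i).trans_lt h3), zero_mul]
      · rw [(degree_lt_iff_coeff_zero _ _).1 (dH i) s.2 (by have := aw (e1 + e2) i; omega),
          mul_zero]

end Pool.Agent.MP_776d16_ag.H34T
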